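import Pool.Agent.N787.RT.Per

/-! # Bounds for the finite Fourier coefficients of the indicator of a digit interval -/

set_option autoImplicit false

namespace Pool.Agent.N787.RT

open Finset
open Pool.Agent.H807R2.Dav (ee norm_ee ee_add ee_zero ee_int ee_add_int ee_pow ee_eq dd dd_nonneg
  dd_neg dd_add_int dd_le dd_ge)
open Pool.Agent.R485.Trans (indicator_eq)

/-- the indicator function of `[α, β)` modulo one -/
noncomputable def ind (α β y : ℝ) : ℝ := if α ≤ Int.fract y ∧ Int.fract y < β then 1 else 0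

lemma ind_nonneg (α β y : ℝ) : 0 ≤ ind α β y := by
  unfold ind; split_ifs <;> norm_num

lemma ind_le (α β y : ℝ) : ind α β y ≤ 1 := by
  unfold ind; split_ifs <;> norm_num

lemma ind_add_int (α β y : ℝ) (n : ℤ) : ind α β (y + n) = ind α β y := by
  unfold ind; rw [Int.fract_add_intCast]

/-- its finite Fourier coefficients -/
noncomputable def GG (D s : ℕ) (α β y : ℝ) : ℂ :=
  ∑ m ∈ range D, ee (-(s * m / D)) * ((ind α β (y + m / D) : ℝ) : ℂ)

lemma ind_eq (α β y : ℝ) (h0 : 0 ≤ α) (h1 : α < β) (h2 : β ≤ 1) :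
    ind α β y = (β - α) + Int.fract (y - β) - Int.fract (y - α) := by
  have := indicator_eq y α β h0 h1 h2
  unfold ind
  linarith

lemma GG_eq (D : ℕ) (hD : 1 ≤ D) (s : ℕ) (α β y : ℝ) (h0 : 0 ≤ α) (h1 : α < β) (h2 : β ≤ 1)
    (hs : ee (-((s : ℝ) / D)) ≠ 1) :
    GG D s α β y * (ee (-((s : ℝ) / D)) - 1) =
      ee (s * ⌊D * (y - β)⌋ / D) - ee (s * ⌊D * (y - α)⌋ / D) := by
  have h3 : GG D s α β y = saw D s (y - β) - saw D s (y - α) := by
    unfold GG saw
    have h4 : ∀ m ∈ range D, ee (-(s * m / D)) * ((ind α β (y + m / D) : ℝ) : ℂ) =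
        ((β - α : ℝ) : ℂ) * ee (-((s : ℝ) / D)) ^ m +
        (ee (-(s * m / D)) * ((Int.fract (y - β + m / D) : ℝ) : ℂ) -
        ee (-(s * m / D)) * ((Int.fract (y - α + m / D) : ℝ) : ℂ)) := by
      intro m _
      rw [ind_eq α β _ h0 h1 h2, ← ee_step]
      rw [show y + (m : ℝ) / D - β = y - β + m / D by ring,
        show y + (m : ℝ) / D - α = y - α + m / D by ring]
      push_cast
      ring
    rw [sum_congr rfl h4, sum_add_distrib, ← mul_sum, sum_sub_distrib]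
    have h5 : ∑ m ∈ range D, ee (-((s : ℝ) / D)) ^ m = 0 := by
      have h6 := mul_geom_sum (ee (-((s : ℝ) / D))) D
      rw [ee_period D hD s, sub_self] at h6
      exact (mul_eq_zero.1 h6).resolve_left (sub_ne_zero.2 hs)
    rw [h5, mul_zero, zero_add]
  rw [h3, saw_eq D hD s _ hs, saw_eq D hD s _ hs]
  have h4 : ee (-((s : ℝ) / D)) - 1 ≠ 0 := sub_ne_zero.2 hs
  field_simp

lemma norm_ee_sub (u v : ℝ) : ‖ee u - ee v‖ ≤ 2 * Real.pi * |v - u| := by
  have h1 : ee u - ee v = ee u * (1 - ee (v - u)) := by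
    rw [mul_sub, mul_one, ← ee_add]
    congr 2
    ring
  rw [h1, norm_mul, norm_ee, one_mul]
  exact dd_le _

lemma norm_ee_sub' (u v : ℝ) : ‖ee u - ee v‖ = dd (v - u) := by
  have h1 : ee u - ee v = ee u * (1 - ee (v - u)) := by
    rw [mul_sub, mul_one, ← ee_add]
    congr 2
    ring
  rw [h1, norm_mul, norm_ee, one_mul]
  rfl

/-- `t / q` is not near an integer -/
lemma dd_quot (t q : ℕ) (hq : 1 ≤ q) (hqt : ¬ q ∣ t) (δ : ℝ) (h0 : 0 ≤ δ) (h1 : δ ≤ 1 / (2 * q)) :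
    2 / (q : ℝ) ≤ dd (t / q + δ) := by
  have hq0 : (0 : ℝ) < q := by exact_mod_cast hq
  have hr1 : 1 ≤ t % q := Nat.one_le_iff_ne_zero.2 fun h => hqt (Nat.dvd_of_mod_eq_zero h)
  have hr2 : t % q + 1 ≤ q := Nat.mod_lt _ (by omega)
  have h2 : (t : ℝ) = (t % q : ℕ) + q * ((t / q : ℕ) : ℝ) := by
    have := Nat.mod_add_div t q
    exact_mod_cast this.symm
  have e : (t : ℝ) / q + δ = (((t % q : ℕ) : ℝ) / q + δ) + (((t / q : ℕ) : ℤ) : ℝ) := by
    have h3 : (t : ℝ) / q = ((t % q : ℕ) : ℝ) / q + ((t / q : ℕ) : ℝ) := by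
      rw [eq_comm, div_add' _ _ _ hq0.ne', eq_comm]
      congr 1
      linarith
    rw [h3, Int.cast_natCast]
    ring
  rw [e, dd_add_int]
  have g1 : (1 : ℝ) ≤ (t % q : ℕ) := by exact_mod_cast hr1
  have g2 : ((t % q : ℕ) : ℝ) + 1 ≤ q := by exact_mod_cast hr2
  have g3 : 1 / (q : ℝ) ≤ ((t % q : ℕ) : ℝ) / q := div_le_div_of_nonneg_right g1 hq0.le
  have g4 : ((t % q : ℕ) : ℝ) / q ≤ 1 - 1 / q := by
    rw [div_le_iff₀ hq0, sub_mul, div_mul_cancel₀ _ hq0.ne']
    linarith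
  have g5 : 1 / (2 * (q : ℝ)) = 1 / q / 2 := by ring
  rw [g5] at h1
  have g6 : 0 < 1 / (q : ℝ) := by positivity
  refine le_trans ?_ (dd_ge (by linarith) (by linarith))
  have g7 : 2 / (q : ℝ) = 4 * (1 / q / 2) := by ring
  rw [g7]
  apply mul_le_mul_of_nonneg_left _ (by norm_num)
  apply le_min <;> linarith

/-- the off-diagonal coefficients -/
lemma GG_off (b p D t a d : ℕ) (hb : 2 ≤ b) (hD : D + 1 = b ^ p) (ht : 1 ≤ t) (hbt : ¬ b ∣ t)
    (h2t : 2 * t ≤ D) (ha : 1 ≤ a) (hap : a < p) (hd : d < b) (y : ℝ) :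
    ‖GG D (t * b ^ a) (d / b) ((d + 1) / b) y‖ ≤ 7 * t := by
  have hb0 : (0 : ℝ) < b := by exact_mod_cast (by omega : 0 < b)
  have hD1 : 1 ≤ D := by omega
  have hD0 : (0 : ℝ) < D := by exact_mod_cast hD1
  have ht0 : (0 : ℝ) < t := by exact_mod_cast ht
  set s : ℕ := t * b ^ a with hs
  set q : ℕ := b ^ (p - a) with hq
  have hq1 : 1 ≤ q := Nat.one_le_pow _ _ (by omega)
  have hq0 : (0 : ℝ) < q := by exact_mod_cast hq1
  have hqt : ¬ q ∣ t := fun h => hbt ((dvd_pow_self b (by omega : p - a ≠ 0)).trans h)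
  have hprod : b ^ a * q = D + 1 := by
    rw [hq, ← pow_add, hD]
    congr 1
    omega
  have hprodR : (b : ℝ) ^ a * q = D + 1 := by exact_mod_cast hprod
  have h2tR : 2 * (t : ℝ) ≤ D := by exact_mod_cast h2t
  -- the denominator
  have hsD : (s : ℝ) / D = t / q + t / (q * D) := by
    rw [hs]
    push_cast
    rw [div_add_div _ _ hq0.ne' (by positivity), div_eq_div_iff hD0.ne' (by positivity)]
    have : (t : ℝ) * b ^ a * (q * (q * D)) = t * (b ^ a * q) * (q * D) := by ring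
    rw [this, hprodR]
    ring
  have hden : 2 / (q : ℝ) ≤ dd (s / D) := by
    rw [hsD]
    refine dd_quot t q hq1 hqt _ (by positivity) ?_
    rw [div_le_div_iff₀ (by positivity) (by positivity)]
    nlinarith
  have hden' : ‖ee (-((s : ℝ) / D)) - 1‖ = dd (s / D) := by
    rw [← ee_zero, norm_ee_sub']
    congr 1
    ring
  have hs1 : ee (-((s : ℝ) / D)) ≠ 1 := by
    intro h
    rw [h, sub_self, norm_zero] at hden'
    have : 0 < 2 / (q : ℝ) := by positivity
    linarith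
  -- the numerator
  have hα0 : (0 : ℝ) ≤ d / b := by positivity
  have hαβ : (d : ℝ) / b < (d + 1) / b := by
    apply div_lt_div_of_pos_right _ hb0
    linarith
  have hβ1 : ((d : ℝ) + 1) / b ≤ 1 := by
    rw [div_le_one hb0]
    exact_mod_cast hd
  have hG := GG_eq D hD1 s _ _ y hα0 hαβ hβ1 hs1
  have hexp : ∀ e : ℕ, ee (s * ⌊D * (y - (e : ℝ) / b)⌋ / D) =
      ee (s * y - s * Int.fract (D * (y - (e : ℝ) / b)) / D) := by
    intro e
    have h1 : ((⌊D * (y - (e : ℝ) / b)⌋ : ℤ) : ℝ) =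
        D * (y - e / b) - Int.fract (D * (y - (e : ℝ) / b)) := by
      have := Int.floor_add_fract (D * (y - (e : ℝ) / b))
      linarith
    rw [h1]
    have h2 : (s : ℝ) * (D * (y - e / b) - Int.fract (D * (y - (e : ℝ) / b))) / D =
        (s * y - s * Int.fract (D * (y - (e : ℝ) / b)) / D) + ((-(t * b ^ (a - 1) * e : ℕ) : ℤ) : ℝ) := by
      have h3 : (b : ℝ) ^ a = b ^ (a - 1) * b := by
        rw [← pow_succ]
        congr 1
        omega
      rw [hs]
      push_cast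
      rw [h3]
      field_simp
      ring
    rw [h2, ee_add_int]
  have hnum : ‖ee (s * ⌊D * (y - ((d : ℝ) + 1) / b)⌋ / D) - ee (s * ⌊D * (y - (d : ℝ) / b)⌋ / D)‖ ≤
      2 * Real.pi * (s / D) := by
    have h1 := hexp (d + 1)
    push_cast at h1
    rw [h1, hexp d]
    refine (norm_ee_sub _ _).trans ?_
    apply mul_le_mul_of_nonneg_left _ (by positivity)
    have e1 : (s : ℝ) * y - s * Int.fract (D * (y - (d : ℝ) / b)) / D -
        (s * y - s * Int.fract (D * (y - ((d : ℝ) + 1) / b)) / D) =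
        s / D * (Int.fract (D * (y - ((d : ℝ) + 1) / b)) - Int.fract (D * (y - (d : ℝ) / b))) := by
      ring
    rw [e1, abs_mul, abs_of_nonneg (by positivity : (0 : ℝ) ≤ s / D)]
    apply mul_le_of_le_one_right (by positivity)
    rw [abs_le]
    have f1 := Int.fract_nonneg (D * (y - ((d : ℝ) + 1) / b))
    have f2 := Int.fract_lt_one (D * (y - ((d : ℝ) + 1) / b))
    have f3 := Int.fract_nonneg (D * (y - (d : ℝ) / b))
    have f4 := Int.fract_lt_one (D * (y - (d : ℝ) / b))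
    constructor <;> linarith
  rw [← hG, norm_mul, hden'] at hnum
  -- conclusion
  have h1 : ‖GG D s (d / b) ((d + 1) / b) y‖ * (2 / q) ≤ 2 * Real.pi * (s / D) :=
    (mul_le_mul_of_nonneg_left hden (norm_nonneg _)).trans hnum
  have h2 : ‖GG D s (d / b) ((d + 1) / b) y‖ ≤ Real.pi * (s * q / D) := by
    have h3 : ‖GG D s (d / b) ((d + 1) / b) y‖ =
        ‖GG D s (d / b) ((d + 1) / b) y‖ * (2 / q) * (q / 2) := by
      field_simp
    rw [h3]
    calc _ ≤ 2 * Real.pi * (s / D) * (q / 2) := mul_le_mul_of_nonneg_right h1 (by positivity)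
      _ = _ := by ring
  refine h2.trans ?_
  have h3 : (s : ℝ) * q / D ≤ 2 * t := by
    rw [div_le_iff₀ hD0, hs]
    push_cast
    have : (t : ℝ) * b ^ a * q = t * (b ^ a * q) := by ring
    rw [this, hprodR]
    have : (1 : ℝ) ≤ D := by exact_mod_cast hD1
    nlinarith
  have h4 := Real.pi_lt_d2
  have h5 := Real.pi_pos
  calc Real.pi * (s * q / D) ≤ Real.pi * (2 * t) := mul_le_mul_of_nonneg_left h3 h5.le
    _ ≤ 7 * t := by nlinarith

/-- the diagonal coefficient -/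
lemma GG_diag (b D t d : ℕ) (hb : 2 ≤ b) (hD1 : 1 ≤ D) (ht : 1 ≤ t)
    (h2t : 2 * t ≤ D) (hd : d < b) (y : ℝ) :
    ‖ee (t * y) * (ee (-(t * ((d + 1) / b))) - ee (-(t * (d / b)))) -
      GG D t (d / b) ((d + 1) / b) y * (ee (-((t : ℝ) / D)) - 1)‖ ≤ 4 * Real.pi * (t / D) := by
  have hb0 : (0 : ℝ) < b := by exact_mod_cast (by omega : 0 < b)
  have hD0 : (0 : ℝ) < D := by exact_mod_cast hD1
  have ht0 : (0 : ℝ) < t := by exact_mod_cast ht
  have h2tR : 2 * (t : ℝ) ≤ D := by exact_mod_cast h2t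
  have htD : (t : ℝ) / D ≤ 1 / 2 := by
    rw [div_le_div_iff₀ hD0 (by norm_num)]
    linarith
  have hs1 : ee (-((t : ℝ) / D)) ≠ 1 := by
    intro h
    have h1 : dd (t / D) = 0 := by
      rw [← dd_neg]
      unfold dd
      rw [h, sub_self, norm_zero]
    have h2 := dd_ge (t := (t : ℝ) / D) (by positivity) (by linarith)
    rw [h1] at h2
    have h3 : 0 < min ((t : ℝ) / D) (1 - t / D) := lt_min (by positivity) (by linarith)
    linarith
  have hα0 : (0 : ℝ) ≤ d / b := by positivity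
  have hαβ : (d : ℝ) / b < (d + 1) / b := by
    apply div_lt_div_of_pos_right _ hb0
    linarith
  have hβ1 : ((d : ℝ) + 1) / b ≤ 1 := by
    rw [div_le_one hb0]
    exact_mod_cast hd
  rw [GG_eq D hD1 t _ _ y hα0 hαβ hβ1 hs1]
  have hexp : ∀ γ : ℝ, ‖ee (t * (y - γ)) - ee (t * ⌊D * (y - γ)⌋ / D)‖ ≤
      2 * Real.pi * (t / D) := by
    intro γ
    refine (norm_ee_sub _ _).trans ?_
    apply mul_le_mul_of_nonneg_left _ (by positivity)
    have h1 : ((⌊D * (y - γ)⌋ : ℤ) : ℝ) = D * (y - γ) - Int.fract (D * (y - γ)) := by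
      have := Int.floor_add_fract (D * (y - γ))
      linarith
    have h2 : (t : ℝ) * ⌊D * (y - γ)⌋ / D - t * (y - γ) = -(t / D * Int.fract (D * (y - γ))) := by
      rw [h1]
      field_simp
      ring
    rw [h2, abs_neg, abs_of_nonneg (mul_nonneg (by positivity) (Int.fract_nonneg _))]
    exact mul_le_of_le_one_right (by positivity) (Int.fract_lt_one _).le
  have e1 : ee (t * y) * (ee (-(t * ((d + 1) / b))) - ee (-(t * (d / b)))) -
      (ee (t * ⌊D * (y - ((d : ℝ) + 1) / b)⌋ / D) - ee (t * ⌊D * (y - (d : ℝ) / b)⌋ / D)) =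
      (ee (t * (y - ((d : ℝ) + 1) / b)) - ee (t * ⌊D * (y - ((d : ℝ) + 1) / b)⌋ / D)) -
      (ee (t * (y - (d : ℝ) / b)) - ee (t * ⌊D * (y - (d : ℝ) / b)⌋ / D)) := by
    rw [mul_sub, ← ee_add, ← ee_add]
    rw [show (t : ℝ) * y + -(t * (((d : ℝ) + 1) / b)) = t * (y - ((d : ℝ) + 1) / b) by ring,
      show (t : ℝ) * y + -(t * ((d : ℝ) / b)) = t * (y - (d : ℝ) / b) by ring]
    ring
  rw [e1]
  refine (norm_sub_le _ _).trans ?_
  have h3 := hexp (((d : ℝ) + 1) / b)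
  have h4 := hexp ((d : ℝ) / b)
  linarith

/-- the size of the main coefficient -/
lemma main_coef (b t d : ℕ) (hb : 2 ≤ b) (hbt : ¬ b ∣ t) :
    2 / (b : ℝ) ≤ ‖ee (-(t * (((d : ℝ) + 1) / b))) - ee (-(t * ((d : ℝ) / b)))‖ := by
  rw [norm_ee_sub']
  have e : -((t : ℝ) * (d / b)) - -(t * ((d + 1) / b)) = t / b + 0 := by
    ring
  rw [e]
  exact dd_quot t b (by omega) hbt 0 le_rfl (by positivity)

end Pool.Agent.N787.RT
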