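import Pool.Agent.N787.RT.Rat

/-! # The criterion by one digit in the rational translates -/

set_option autoImplicit false

namespace Pool.Agent.N787.RT

open Finset Filter Topology
open Pool.Agent.N915.ML (vis digit count IsWord Freq Normal val count_eq val_bounds)

lemma AA_le (b D d : ℕ) (x : ℝ) (N m : ℕ) : AA b D d x N m ≤ N := by
  unfold AA
  have h : ∀ k ∈ range N, ind ((d : ℝ) / b) (((d : ℝ) + 1) / b) ((x + m / D) * (b : ℝ) ^ k) - 1 / b ≤
      1 := by
    intro k _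
    have h1 := ind_le ((d : ℝ) / b) (((d : ℝ) + 1) / b) ((x + m / D) * (b : ℝ) ^ k)
    have h2 : (0 : ℝ) ≤ 1 / b := by positivity
    linarith
  refine (sum_le_sum h).trans (le_of_eq ?_)
  rw [sum_const, card_range, nsmul_eq_mul, mul_one]

lemma AA_ge (b D d : ℕ) (hb : 2 ≤ b) (x : ℝ) (N m : ℕ) : -(N : ℝ) ≤ AA b D d x N m := by
  unfold AA
  have h : ∀ k ∈ range N, (-1 : ℝ) ≤
      ind ((d : ℝ) / b) (((d : ℝ) + 1) / b) ((x + m / D) * (b : ℝ) ^ k) - 1 / b := by
    intro k _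
    have h1 := ind_nonneg ((d : ℝ) / b) (((d : ℝ) + 1) / b) ((x + m / D) * (b : ℝ) ^ k)
    have h2 : (1 : ℝ) / b ≤ 1 := by
      rw [div_le_one (by positivity)]
      exact_mod_cast (by omega : 1 ≤ b)
    linarith
  refine le_trans (le_of_eq ?_) (sum_le_sum h)
  rw [sum_const, card_range, nsmul_eq_mul, mul_neg, mul_one]

lemma words_of_vis (b : ℕ) (hb : 2 ≤ b) (ε : ℝ) (x : ℝ) (N : ℕ)
    (H : ∀ s t : ℝ, 0 ≤ s → s < t → t ≤ 1 →
      |(vis (range N) (fun n => x * (b : ℝ) ^ n) s t : ℝ) - (t - s) * N| ≤ ε * N)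
    (l : ℕ) (w : ℕ → ℤ) (hw : IsWord b l w) :
    |(count b x l w N : ℝ) - N / (b : ℝ) ^ l| ≤ ε * N := by
  have hb1 : 1 ≤ b := by omega
  have hv := val_bounds b w l hw
  have hP : (0 : ℝ) < ((b ^ l : ℕ) : ℝ) := by positivity
  have h2 := H ((val b w l : ℝ) / (b ^ l : ℕ)) (((val b w l : ℝ) + 1) / (b ^ l : ℕ))
    (div_nonneg (by exact_mod_cast hv.1) hP.le)
    (div_lt_div_of_pos_right (by linarith) hP) (by
      rw [div_le_one hP]
      have : val b w l + 1 ≤ (b : ℤ) ^ l := hv.2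
      exact_mod_cast this)
  rw [← count_eq b hb1 x l w hw N] at h2
  have e : (((val b w l : ℝ) + 1) / (b ^ l : ℕ) - (val b w l : ℝ) / (b ^ l : ℕ)) * N =
      N / (b : ℝ) ^ l := by
    push_cast
    ring
  rw [e] at h2
  exact h2

/-- one stage, with exceptions, for a lower or upper bound (`σ = 1` or `σ = -1`) -/
theorem stage_signed (b d : ℕ) (hb : 2 ≤ b) (hd : d < b) (σ : ℝ) (hσ : σ = 1 ∨ σ = -1) (ε : ℝ)
    (hε : 0 < ε) :
    ∃ η : ℝ, 0 < η ∧ ∃ P : ℕ, 1 ≤ P ∧ ∃ N0 : ℕ, ∀ p : ℕ, P ≤ p →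
      ∀ (x : ℝ) (N : ℕ), N0 ≤ N → ∀ E : Finset ℕ, (E.card : ℝ) ≤ η * ((b : ℝ) ^ p - 1) / p →
        (∀ m : ℕ, m < b ^ p - 1 → m ∉ E →
          σ * ((dcount b (x + m / ((b : ℝ) ^ p - 1)) d N : ℝ) - N / b) ≤ η / p * N) →
        ∀ (l : ℕ) (w : ℕ → ℤ), IsWord b l w →
          |(count b x l w N : ℝ) - N / (b : ℝ) ^ l| ≤ ε * N := by
  obtain ⟨η, hη, P, hP, N0, H⟩ := stage_core b d hb hd ε hε
  obtain ⟨P', hP', H'⟩ := small_quot b hb (η / 2) (by positivity)
  refine ⟨η / 8, by positivity, max P P', hP.trans (le_max_left _ _), N0,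
    fun p hp x N hN E hE h l w hw => ?_⟩
  have hpP : P ≤ p := (le_max_left _ _).trans hp
  have hpP' : P' ≤ p := (le_max_right _ _).trans hp
  have hp1 : 1 ≤ p := hP.trans hpP
  have hp0 : (0 : ℝ) < p := by exact_mod_cast (by omega : 0 < p)
  have hbp : 2 ≤ b ^ p := by
    calc 2 ≤ b := hb
      _ = b ^ 1 := (pow_one b).symm
      _ ≤ b ^ p := Nat.pow_le_pow_right (by omega) hp1
  set D : ℕ := b ^ p - 1 with hDdef
  have hD1 : 1 ≤ D := by omega
  have hD : D + 1 = b ^ p := by omega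
  have hDR : (D : ℝ) = (b : ℝ) ^ p - 1 := by
    have : ((D + 1 : ℕ) : ℝ) = ((b ^ p : ℕ) : ℝ) := by rw [hD]
    push_cast at this
    linarith
  have hNn : (0 : ℝ) ≤ N := Nat.cast_nonneg _
  rw [← hDR] at hE
  have hD0 : (0 : ℝ) < D := by exact_mod_cast hD1
  have hσA : ∀ m, σ * AA b D d x N m ≤ N := by
    intro m
    rcases hσ with h1 | h1
    · rw [h1, one_mul]
      exact AA_le b D d x N m
    · rw [h1]
      have := AA_ge b D d hb x N m
      linarith
  have habs : ∀ t : ℝ, |σ * t| = |t| := by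
    intro t
    rcases hσ with h1 | h1
    · rw [h1, one_mul]
    · rw [h1, neg_one_mul, abs_neg]
  have h1 := onesided D (fun m => σ * AA b D d x N m) N N (η / 8 / p) hNn (by positivity) E
    (fun m hm hmE => by
      have h2 := h m hm hmE
      rw [← hDR, ← AA_eq b D d hb hd] at h2
      exact h2)
    (fun m _ => hσA m) (by
      rw [← mul_sum, habs]
      exact mean_bound b p D d hb hp1 hD1 hD hd x N)
  simp only [habs] at h1
  refine words_of_vis b hb ε x N (H p D hpP hD x N hN ?_) l w hw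
  have h3 : (p : ℝ) * ∑ m ∈ range D, |AA b D d x N m| ≤
      p * (2 * (η / 8 / p * N * D + E.card * N) + N) := mul_le_mul_of_nonneg_left h1 hp0.le
  refine h3.trans ?_
  have h4 : (p : ℝ) * (η / 8 / p * N * D) = η / 8 * D * N := by
    field_simp
  have h5 : (p : ℝ) * E.card ≤ η / 8 * D := by
    rw [le_div_iff₀ hp0] at hE
    linarith
  have h6 := H' p hpP' D hD
  have h7 : (p : ℝ) * E.card * N ≤ η / 8 * D * N := mul_le_mul_of_nonneg_right h5 hNn
  have h8 : (p : ℝ) * N ≤ η / 2 * D * N := mul_le_mul_of_nonneg_right h6 hNn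
  have e : (p : ℝ) * (2 * (η / 8 / p * N * D + E.card * N) + N) =
      2 * (p * (η / 8 / p * N * D)) + 2 * (p * E.card * N) + p * N := by ring
  rw [e, h4]
  linarith

/-- one stage -/
theorem stage (b d : ℕ) (hb : 2 ≤ b) (hd : d < b) (ε : ℝ) (hε : 0 < ε) :
    ∃ p : ℕ, 1 ≤ p ∧ ∃ δ : ℝ, 0 < δ ∧ ∃ N0 : ℕ, ∀ (x : ℝ) (N : ℕ), N0 ≤ N →
      ((∀ m : ℕ, m < b ^ p - 1 →
        (dcount b (x + m / ((b : ℝ) ^ p - 1)) d N : ℝ) ≤ (1 / b + δ) * N) ∨
       (∀ m : ℕ, m < b ^ p - 1 →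
        (1 / b - δ) * N ≤ (dcount b (x + m / ((b : ℝ) ^ p - 1)) d N : ℝ))) →
        ∀ (l : ℕ) (w : ℕ → ℤ), IsWord b l w →
          |(count b x l w N : ℝ) - N / (b : ℝ) ^ l| ≤ ε * N := by
  obtain ⟨η, hη, P, hP, N0, H⟩ := stage_signed b d hb hd 1 (Or.inl rfl) ε hε
  obtain ⟨η', hη', P', hP', N0', H'⟩ := stage_signed b d hb hd (-1) (Or.inr rfl) ε hε
  set p := max P P' with hp
  have hp1 : 1 ≤ p := hP.trans (le_max_left _ _)
  have hp0 : (0 : ℝ) < p := by exact_mod_cast (by omega : 0 < p)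
  have hbp : (1 : ℝ) ≤ (b : ℝ) ^ p := one_le_pow₀ (by exact_mod_cast (by omega : 1 ≤ b))
  refine ⟨p, hp1, min (η / p) (η' / p), by positivity, max N0 N0', fun x N hN h => ?_⟩
  have hNn : (0 : ℝ) ≤ N := Nat.cast_nonneg _
  rcases h with h | h
  · refine H p (le_max_left _ _) x N ((le_max_left _ _).trans hN) ∅ ?_ fun m hm _ => ?_
    · rw [card_empty, Nat.cast_zero]
      apply div_nonneg _ hp0.le
      apply mul_nonneg hη.le
      linarith
    · have h1 := h m hm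
      have h2 : min (η / p) (η' / p) * N ≤ η / p * N :=
        mul_le_mul_of_nonneg_right (min_le_left _ _) hNn
      rw [one_mul]
      have e : (1 / b + min (η / p) (η' / p)) * (N : ℝ) = N / b + min (η / p) (η' / p) * N := by ring
      rw [e] at h1
      linarith
  · refine H' p (le_max_right _ _) x N ((le_max_right _ _).trans hN) ∅ ?_ fun m hm _ => ?_
    · rw [card_empty, Nat.cast_zero]
      apply div_nonneg _ hp0.le
      apply mul_nonneg hη'.le
      linarith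
    · have h1 := h m hm
      have h2 : min (η / p) (η' / p) * N ≤ η' / p * N :=
        mul_le_mul_of_nonneg_right (min_le_right _ _) hNn
      have e : (1 / b - min (η / p) (η' / p)) * (N : ℝ) = N / b - min (η / p) (η' / p) * N := by ring
      rw [e] at h1
      linarith

/-- normality from bounds with exceptions -/
theorem normal_of_robust (b d : ℕ) (hb : 2 ≤ b) (hd : d < b) (σ : ℝ) (hσ : σ = 1 ∨ σ = -1) (x : ℝ)
    (h : ∀ ε : ℝ, 0 < ε → ∃ p : ℕ, 1 / ε ≤ p ∧ ∃ E : Finset ℕ,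
      (E.card : ℝ) ≤ ε * ((b : ℝ) ^ p - 1) / p ∧ ∀ m : ℕ, m < b ^ p - 1 → m ∉ E →
        ∀ᶠ N : ℕ in atTop,
          σ * ((dcount b (x + m / ((b : ℝ) ^ p - 1)) d N : ℝ) - N / b) ≤ ε / p * N) :
    Normal b x := by
  intro l _ w hw
  rw [Metric.tendsto_atTop]
  intro ε hε
  obtain ⟨η, hη, P, hP, N0, H⟩ := stage_signed b d hb hd σ hσ (ε / 2) (by positivity)
  have hPR : (0 : ℝ) < P := by exact_mod_cast (by omega : 0 < P)
  obtain ⟨p, hp, E, hE, h1⟩ := h (min η (1 / P)) (by positivity)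
  have hpP : P ≤ p := by
    have : (P : ℝ) ≤ p := by
      refine le_trans ?_ hp
      rw [le_div_iff₀ (by positivity)]
      have : min η (1 / P) ≤ 1 / P := min_le_right _ _
      calc (P : ℝ) * min η (1 / P) ≤ P * (1 / P) := mul_le_mul_of_nonneg_left this hPR.le
        _ = 1 := by field_simp
    exact_mod_cast this
  have hp0 : (0 : ℝ) < p := by exact_mod_cast (by omega : 0 < p)
  have hbp : (1 : ℝ) ≤ (b : ℝ) ^ p := one_le_pow₀ (by exact_mod_cast (by omega : 1 ≤ b))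
  have hE' : (E.card : ℝ) ≤ η * ((b : ℝ) ^ p - 1) / p := by
    refine hE.trans ?_
    apply div_le_div_of_nonneg_right _ hp0.le
    exact mul_le_mul_of_nonneg_right (min_le_left _ _) (by linarith)
  have hall : ∀ᶠ N : ℕ in atTop, ∀ m ∈ range (b ^ p - 1), m ∉ E →
      σ * ((dcount b (x + m / ((b : ℝ) ^ p - 1)) d N : ℝ) - N / b) ≤ min η (1 / P) / p * N := by
    rw [eventually_all_finset]
    intro m hm
    by_cases hmE : m ∈ E
    · exact Eventually.of_forall fun N hN => absurd hmE hN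
    · filter_upwards [h1 m (mem_range.1 hm) hmE] with N hN _
      exact hN
  obtain ⟨N1, hN1⟩ := eventually_atTop.1 hall
  refine ⟨max (max N0 N1) 1, fun N hN => ?_⟩
  have g1 : N0 ≤ N := (le_max_left _ _).trans ((le_max_left _ _).trans hN)
  have g2 : N1 ≤ N := (le_max_right _ _).trans ((le_max_left _ _).trans hN)
  have g3 : 1 ≤ N := (le_max_right _ _).trans hN
  have hNR : (0 : ℝ) < N := by exact_mod_cast (by omega : 0 < N)
  have h3 := H p hpP x N g1 E hE' (fun m hm hmE => by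
    refine (hN1 N g2 m (mem_range.2 hm) hmE).trans ?_
    apply mul_le_mul_of_nonneg_right _ hNR.le
    exact div_le_div_of_nonneg_right (min_le_left _ _) hp0.le) l w hw
  have e : (count b x l w N : ℝ) / N - 1 / (b : ℝ) ^ l =
      ((count b x l w N : ℝ) - N / (b : ℝ) ^ l) / N := by
    field_simp
  rw [Real.dist_eq, e, abs_div, abs_of_pos hNR, div_lt_iff₀ hNR]
  nlinarith

/-- the frequency of a digit in the rational translates of a normal number -/
lemma digit_tendsto (b d : ℕ) (hb : 2 ≤ b) (hd : d < b) (x : ℝ) (hx : Normal b x) (r : ℚ) :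
    Tendsto (fun N : ℕ => (dcount b (x + r) d N : ℝ) / N) atTop (𝓝 (1 / b)) := by
  have h := normal_add_rat b hb x hx r 1 (fun _ => (d : ℤ)) (fun j _ => ⟨by positivity, by
    show (d : ℤ) < b
    exact_mod_cast hd⟩)
  rw [pow_one] at h
  refine h.congr fun N => ?_
  rw [dcount_eq_count]

lemma close_of_normal (b d : ℕ) (hb : 2 ≤ b) (hd : d < b) (x : ℝ) (hx : Normal b x) (r : ℚ) (ε : ℝ)
    (hε : 0 < ε) : ∀ᶠ N : ℕ in atTop, |(dcount b (x + r) d N : ℝ) - N / b| ≤ ε * N := by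
  have h := digit_tendsto b d hb hd x hx r
  rw [Metric.tendsto_atTop] at h
  obtain ⟨N0, hN0⟩ := h ε hε
  filter_upwards [eventually_ge_atTop N0, eventually_gt_atTop 0] with N hN hN'
  have hNR : (0 : ℝ) < N := by exact_mod_cast hN'
  have h1 := hN0 N hN
  have e : (dcount b (x + r) d N : ℝ) / N - 1 / b =
      ((dcount b (x + r) d N : ℝ) - N / b) / N := by
    field_simp
  rw [Real.dist_eq, e, abs_div, abs_of_pos hNR, div_lt_iff₀ hNR] at h1
  exact h1.le

lemma rat_cast (b p m : ℕ) : (((m : ℚ) / ((b : ℚ) ^ p - 1) : ℚ) : ℝ) = m / ((b : ℝ) ^ p - 1) := by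
  push_cast
  rfl

/-- one-sided bounds for all rational translates -/
theorem normal_of_onesided (b d : ℕ) (hb : 2 ≤ b) (hd : d < b) (σ : ℝ) (hσ : σ = 1 ∨ σ = -1) (x : ℝ)
    (h : ∀ r : ℚ, ∀ ε : ℝ, 0 < ε → ∀ᶠ N : ℕ in atTop,
      σ * ((dcount b (x + r) d N : ℝ) - N / b) ≤ ε * N) : Normal b x := by
  refine normal_of_robust b d hb hd σ hσ x fun ε hε => ?_
  obtain ⟨p, hp⟩ := exists_nat_gt (1 / ε)
  have hp0 : (0 : ℝ) < p := lt_of_lt_of_le (by positivity) hp.le
  have hbp : (1 : ℝ) ≤ (b : ℝ) ^ p := one_le_pow₀ (by exact_mod_cast (by omega : 1 ≤ b))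
  refine ⟨p, hp.le, ∅, ?_, fun m _ _ => ?_⟩
  · rw [card_empty, Nat.cast_zero]
    apply div_nonneg _ hp0.le
    apply mul_nonneg hε.le
    linarith
  · have h1 := h ((m : ℚ) / ((b : ℚ) ^ p - 1)) (ε / p) (by positivity)
    rw [rat_cast] at h1
    exact h1

end Pool.Agent.N787.RT
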