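import Mathlib
import Pool.Agent.H807R2.Dav1
import Pool.Agent.R485.Trans.Saw

/-! # Finite Fourier coefficients of the indicator of an interval over the fractions `m / D` -/

set_option autoImplicit false

namespace Pool.Agent.N787.RT

open Finset
open Pool.Agent.H807R2.Dav (ee norm_ee ee_add ee_zero ee_int ee_add_int ee_pow ee_eq dd dd_nonneg
  dd_neg dd_add_int dd_le dd_ge)
open Pool.Agent.R485.Trans (indicator_eq)

/-- sums of periodic functions over a period -/
lemma sum_periodic (D : ℕ) (hD : 1 ≤ D) (g : ℤ → ℂ) (hg : ∀ m : ℤ, g (m + D) = g m) (u n : ℤ)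
    (hu : IsCoprime u (D : ℤ)) :
    ∑ m ∈ range D, g (u * m + n) = ∑ m ∈ range D, g m := by
  classical
  have hper : ∀ (m k : ℤ), g (m + k * D) = g m := by
    intro m k
    induction k using Int.induction_on with
    | zero => simp
    | succ i ih =>
      rw [← ih, ← hg (m + i * D)]
      congr 1
      push_cast
      ring
    | pred i ih =>
      rw [← hg (m + (-(i : ℤ) - 1) * D), ← ih]
      congr 1
      ring
  have hmod : ∀ m m' : ℤ, m % D = m' % D → g m = g m' := by
    intro m m' h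
    rw [← Int.emod_add_mul_ediv m D, ← Int.emod_add_mul_ediv m' D, h, mul_comm (D : ℤ),
      mul_comm (D : ℤ) (m' / D), hper, hper]
  have hD0 : (0 : ℤ) < D := by exact_mod_cast hD
  refine sum_bij (fun m _ => ((u * m + n) % D).toNat) ?_ ?_ ?_ ?_
  · intro m _
    have h1 := Int.emod_nonneg (u * m + n) hD0.ne'
    have h2 := Int.emod_lt_of_pos (u * m + n) hD0
    rw [mem_range]
    omega
  · intro m hm m' hm' h
    have h1 := Int.emod_nonneg (u * m + n) hD0.ne'
    have h2 := Int.emod_nonneg (u * m' + n) hD0.ne'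
    have h3 : (u * m + n) % D = (u * m' + n) % D := by
      have := congrArg (fun z : ℕ => (z : ℤ)) h
      simp only [Int.toNat_of_nonneg h1, Int.toNat_of_nonneg h2] at this
      exact this
    have h4 : (D : ℤ) ∣ u * (m - m' : ℤ) := by
      have := Int.ModEq.dvd (show (u * m' + n) ≡ (u * m + n) [ZMOD D] from h3.symm)
      have e : u * (m : ℤ) + n - (u * m' + n) = u * (m - m') := by ring
      rwa [e] at this
    have h5 : (D : ℤ) ∣ (m - m' : ℤ) := hu.symm.dvd_of_dvd_mul_left h4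
    rw [mem_range] at hm hm'
    have h6 := Int.eq_zero_of_abs_lt_dvd h5 (by rw [abs_lt]; constructor <;> omega)
    omega
  · intro m hm
    rw [mem_range] at hm
    obtain ⟨v, w, hvw⟩ := hu
    have h1 := Int.emod_nonneg (v * (m - n)) hD0.ne'
    have h2 := Int.emod_lt_of_pos (v * (m - n)) hD0
    refine ⟨((v * (m - n)) % D).toNat, by rw [mem_range]; omega, ?_⟩
    have h3 : (((v * (m - n)) % D).toNat : ℤ) = (v * (m - n)) % D := Int.toNat_of_nonneg h1
    rw [h3]
    have h4 : (u * ((v * (m - n)) % D) + n) % D = m := by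
      have h5 : (u * ((v * ((m : ℤ) - n)) % D) + n) ≡ m [ZMOD D] := by
        have h6 : (v * ((m : ℤ) - n)) % D ≡ v * (m - n) [ZMOD D] := Int.mod_modEq _ _
        have h7 := (h6.mul_left u).add_right n
        refine h7.trans ?_
        have e : u * (v * ((m : ℤ) - n)) + n = m + D * (-(w * (m - n))) := by
          linear_combination ((m : ℤ) - n) * hvw
        rw [e]
        exact (Int.modEq_iff_dvd.2 ⟨w * (m - n), by ring⟩)
      have h8 : ((m : ℤ)) % D = m := Int.emod_eq_of_lt (by omega) (by omega)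
      rw [h5, h8]
    rw [h4]
    simp
  · intro m _
    have h1 := Int.emod_nonneg (u * m + n) hD0.ne'
    apply hmod
    rw [Int.toNat_of_nonneg h1]
    simp

/-- `∑ m z ^ m` over a period -/
lemma sum_mul_pow (z : ℂ) (n : ℕ) (h : z ^ n = 1) (h1 : z ≠ 1) :
    ∑ m ∈ range n, (m : ℂ) * z ^ m = n / (z - 1) := by
  have h2 : z - 1 ≠ 0 := sub_ne_zero.2 h1
  have key : ∀ k : ℕ, (z - 1) * ∑ m ∈ range k, (m : ℂ) * z ^ m =
      k * z ^ k - ∑ m ∈ range k, z ^ (m + 1) := by
    intro k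
    induction k with
    | zero => simp
    | succ k ih =>
      rw [sum_range_succ, sum_range_succ, mul_add, ih]
      push_cast
      ring
  have h3 : ∑ m ∈ range n, z ^ (m + 1) = 0 := by
    have h4 := mul_geom_sum z n
    rw [h, sub_self] at h4
    have h5 := (mul_eq_zero.1 h4).resolve_left h2
    have h6 : ∑ m ∈ range n, z ^ (m + 1) = z * ∑ m ∈ range n, z ^ m := by
      rw [mul_sum]
      exact sum_congr rfl fun m _ => by rw [pow_succ]; ring
    rw [h6, h5, mul_zero]
  rw [eq_div_iff h2, mul_comm]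
  rw [key n, h, h3]
  ring

lemma ee_neg_mul (x : ℝ) : ee (-x) * ee x = 1 := by
  rw [← ee_add, neg_add_cancel, ee_zero]

/-- fractional parts of `(k + θ) / D` -/
lemma fract_div (D : ℕ) (hD : 1 ≤ D) (k : ℤ) (θ : ℝ) (h0 : 0 ≤ θ) (h1 : θ < 1) :
    Int.fract (((k : ℝ) + θ) / D) = (((k % D : ℤ) : ℝ) + θ) / D := by
  have hD0 : (0 : ℝ) < D := by exact_mod_cast hD
  have hDZ : (0 : ℤ) < D := by exact_mod_cast hD
  have h2 := Int.emod_nonneg k hDZ.ne'
  have h3 := Int.emod_lt_of_pos k hDZ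
  have h4 : ((k % D : ℤ) : ℝ) + 1 ≤ D := by exact_mod_cast h3
  have h5 : (0 : ℝ) ≤ ((k % D : ℤ) : ℝ) := by exact_mod_cast h2
  have e : ((k : ℝ) + θ) / D = (((k % D : ℤ) : ℝ) + θ) / D + ((k / D : ℤ) : ℝ) := by
    have h6 := Int.emod_add_mul_ediv k D
    have h7 : (k : ℝ) = ((k % D : ℤ) : ℝ) + D * ((k / D : ℤ) : ℝ) := by
      rw [← Int.cast_natCast (R := ℝ) D, ← Int.cast_mul, ← Int.cast_add, h6]
    rw [h7]
    field_simp
    push_cast
    ring_nf
  rw [e, Int.fract_add_intCast]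
  apply Int.fract_eq_self.2
  constructor
  · positivity
  · rw [div_lt_one hD0]
    linarith

/-- the sawtooth over the fractions `m / D` -/
noncomputable def saw (D : ℕ) (s : ℕ) (γ : ℝ) : ℂ :=
  ∑ m ∈ range D, ee (-(s * m / D)) * ((Int.fract (γ + m / D) : ℝ) : ℂ)

lemma ee_step (D s m : ℕ) : ee (-(s * m / D)) = ee (-(s / D)) ^ m := by
  rw [← ee_pow]
  congr 1
  ring

lemma ee_period (D : ℕ) (hD : 1 ≤ D) (s : ℕ) : ee (-((s : ℝ) / D)) ^ D = 1 := by
  rw [← ee_pow]
  have hD0 : (D : ℝ) ≠ 0 := by positivity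
  have e : (D : ℝ) * -((s : ℝ) / D) = ((-(s : ℤ) : ℤ) : ℝ) := by
    push_cast
    field_simp
  rw [e, ee_int]

lemma saw_eq (D : ℕ) (hD : 1 ≤ D) (s : ℕ) (γ : ℝ) (hs : ee (-((s : ℝ) / D)) ≠ 1) :
    saw D s γ = ee (s * ⌊D * γ⌋ / D) / (ee (-((s : ℝ) / D)) - 1) := by
  have hD0 : (0 : ℝ) < D := by exact_mod_cast hD
  have hDZ : (0 : ℤ) < D := by exact_mod_cast hD
  set n : ℤ := ⌊D * γ⌋ with hn
  set θ : ℝ := Int.fract (D * γ) with hθ
  set w : ℂ := ee (-((s : ℝ) / D)) with hw
  have hθ0 : 0 ≤ θ := Int.fract_nonneg _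
  have hθ1 : θ < 1 := Int.fract_lt_one _
  have h1 : ∀ m : ℕ, Int.fract (γ + m / D) = ((((n + m) % D : ℤ) : ℝ) + θ) / D := by
    intro m
    rw [← fract_div D hD (n + m) θ hθ0 hθ1]
    congr 1
    have h2 : D * γ = n + θ := by rw [hn, hθ]; exact (Int.floor_add_fract _).symm
    rw [eq_div_iff hD0.ne']
    push_cast
    have : (γ + m / D) * D = D * γ + m := by field_simp
    rw [this, h2]
    ring
  -- the periodic function
  let g : ℤ → ℂ := fun m => ee (-(s * m / D)) * (((((m % D : ℤ) : ℝ) + θ) / D : ℝ) : ℂ)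
  have hg : ∀ m : ℤ, g (m + D) = g m := by
    intro m
    show ee _ * _ = ee _ * _
    have e1 : -((s : ℝ) * ((m + D : ℤ) : ℝ) / D) = -(s * m / D) + ((-(s : ℤ) : ℤ) : ℝ) := by
      push_cast
      field_simp
      ring
    rw [e1, ee_add_int]
    congr 3
    rw [Int.add_emod_right]
  have h2 : saw D s γ = ee (s * n / D) * ∑ m ∈ range D, g (1 * m + n) := by
    unfold saw
    rw [mul_sum]
    refine sum_congr rfl fun m _ => ?_
    show _ = ee _ * (ee _ * _)
    rw [← mul_assoc, ← ee_add, h1]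
    congr 2
    · push_cast
      ring
    · rw [one_mul, add_comm (m : ℤ) n]
  have h3 : ∑ m ∈ range D, g m = 1 / (w - 1) := by
    have h4 : ∀ m ∈ range D, g m = ((m : ℂ) * w ^ m + (θ : ℂ) * w ^ m) / D := by
      intro m hm
      rw [mem_range] at hm
      show ee _ * _ = _
      have h5 : ((m : ℤ) % (D : ℤ)) = m := Int.emod_eq_of_lt (by omega) (by omega)
      rw [h5]
      have h6 := ee_step D s m
      push_cast at h6 ⊢
      rw [h6]
      ring
    rw [sum_congr rfl h4, ← sum_div, sum_add_distrib, ← mul_sum,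
      sum_mul_pow w D (ee_period D hD s) hs]
    have h5 : ∑ m ∈ range D, w ^ m = 0 := by
      have h6 := mul_geom_sum w D
      rw [ee_period D hD s, sub_self] at h6
      exact (mul_eq_zero.1 h6).resolve_left (sub_ne_zero.2 hs)
    rw [h5, mul_zero, add_zero]
    have hDC : (D : ℂ) ≠ 0 := by exact_mod_cast hD0.ne'
    have : w - 1 ≠ 0 := sub_ne_zero.2 hs
    field_simp
  rw [h2, sum_periodic D hD g hg 1 n isCoprime_one_left, h3]
  ring

/-- the mean value of the sawtooth -/
lemma sum_fract (D : ℕ) (hD : 1 ≤ D) (γ : ℝ) :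
    ∑ m ∈ range D, Int.fract (γ + m / D) = Int.fract (D * γ) + ∑ m ∈ range D, (m : ℝ) / D := by
  have hD0 : (0 : ℝ) < D := by exact_mod_cast hD
  set n : ℤ := ⌊D * γ⌋ with hn
  set θ : ℝ := Int.fract (D * γ) with hθ
  have hθ0 : 0 ≤ θ := Int.fract_nonneg _
  have hθ1 : θ < 1 := Int.fract_lt_one _
  have h1 : ∀ m : ℕ, Int.fract (γ + m / D) = ((((n + m) % D : ℤ) : ℝ) + θ) / D := by
    intro m
    rw [← fract_div D hD (n + m) θ hθ0 hθ1]
    congr 1
    have h2 : D * γ = n + θ := by rw [hn, hθ]; exact (Int.floor_add_fract _).symm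
    rw [eq_div_iff hD0.ne']
    push_cast
    have : (γ + m / D) * D = D * γ + m := by field_simp
    rw [this, h2]
    ring
  let g : ℤ → ℂ := fun m => (((((m % D : ℤ) : ℝ) + θ) / D : ℝ) : ℂ)
  have hg : ∀ m : ℤ, g (m + D) = g m := by
    intro m
    show ((_ : ℝ) : ℂ) = _
    rw [Int.add_emod_right]
  have h2 := sum_periodic D hD g hg 1 n isCoprime_one_left
  have h3 : ∑ m ∈ range D, Int.fract (γ + m / D) = ∑ m ∈ range D, ((m : ℝ) + θ) / D := by
    have h4 : ((∑ m ∈ range D, Int.fract (γ + m / D) : ℝ) : ℂ) =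
        ((∑ m ∈ range D, ((m : ℝ) + θ) / D : ℝ) : ℂ) := by
      rw [Complex.ofReal_sum, Complex.ofReal_sum]
      have h5 : ∀ m ∈ range D, ((Int.fract (γ + m / D) : ℝ) : ℂ) = g (1 * m + n) := by
        intro m _
        rw [h1, one_mul, add_comm (m : ℤ) n]
      rw [sum_congr rfl h5, h2]
      refine sum_congr rfl fun m hm => ?_
      rw [mem_range] at hm
      show ((_ : ℝ) : ℂ) = _
      have h5 : ((m : ℤ) % (D : ℤ)) = m := Int.emod_eq_of_lt (by omega) (by omega)
      rw [h5]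
      push_cast
      ring
    exact_mod_cast h4
  rw [h3]
  simp only [add_div]
  rw [sum_add_distrib, sum_const, card_range, nsmul_eq_mul]
  have : (D : ℝ) * (θ / D) = θ := by field_simp
  rw [this, add_comm]

end Pool.Agent.N787.RT
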