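import Pool.Agent.N787.RT.Wall

/-! # Rational translates of normal numbers; the criterion -/

set_option autoImplicit false

namespace Pool.Agent.N787.RT

open Finset Filter Topology
open Pool.Agent.H807R2.Dav (ee norm_ee ee_add ee_zero ee_int ee_add_int ee_pow ee_eq)
open Pool.Agent.N915.ML (vis digit count IsWord Freq Normal val count_eq val_bounds disc_gen
  ud_of_normal count_tendsto)
open Pool.Agent.H534R3.UDist (UD Weyl ud_of_weyl)
open Pool.Agent.H534R3.Rota (ud_weyl)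

/-- the powers of `b` are eventually periodic modulo `v` -/
lemma pow_period (b v : ℕ) (hv : 1 ≤ v) : ∃ i p : ℕ, 1 ≤ p ∧ ∀ n : ℕ, i ≤ n →
    (v : ℤ) ∣ (b : ℤ) ^ (n + p) - (b : ℤ) ^ n := by
  haveI : NeZero v := ⟨by omega⟩
  obtain ⟨i, j, hij, hne⟩ : ∃ i j : ℕ, (b : ZMod v) ^ i = (b : ZMod v) ^ j ∧ i < j := by
    obtain ⟨i, j, hne, h⟩ := Finite.exists_ne_map_eq_of_infinite fun n : ℕ => (b : ZMod v) ^ n
    rcases lt_or_gt_of_ne hne with h1 | h1
    · exact ⟨i, j, h, h1⟩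
    · exact ⟨j, i, h.symm, h1⟩
  refine ⟨i, j - i, by omega, fun n hn => ?_⟩
  rw [← ZMod.intCast_zmod_eq_zero_iff_dvd]
  push_cast
  have e1 : n + (j - i) = (n - i) + j := by omega
  have e2 : n = (n - i) + i := by omega
  rw [e1]
  conv_lhs => rw [e2]
  simp only [Nat.add_sub_cancel]
  rw [pow_add, pow_add, hij, sub_self]

theorem normal_add_rat (b : ℕ) (hb : 2 ≤ b) (x : ℝ) (hx : Normal b x) (r : ℚ) (k : ℕ) :
    Freq b k (x + r) := by
  apply count_tendsto b k (by omega)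
  apply ud_of_weyl
  intro h hh
  have hW : ∀ h : ℕ, 1 ≤ h → Tendsto (fun N : ℕ =>
      ‖∑ n ∈ range N, ee (h * (x * (b : ℝ) ^ n))‖ / N) atTop (𝓝 0) :=
    fun h hh => ud_weyl _ (ud_of_normal b hb x hx) h hh
  obtain ⟨i, p, hp, H⟩ := pow_period b r.den r.pos
  set c : ℕ → ℂ := fun n => ee (h * (r * (b : ℝ) ^ (n + i))) with hc
  have hper : ∀ n, c (n + p) = c n := by
    intro n
    obtain ⟨z, hz⟩ := H (n + i) (by omega)
    have hz' : (b : ℝ) ^ (n + i + p) = (b : ℝ) ^ (n + i) + r.den * z := by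
      have : ((b : ℤ) ^ (n + i + p) : ℝ) = (b : ℤ) ^ (n + i) + (r.den : ℤ) * z := by
        have h1 : (b : ℤ) ^ (n + i + p) = (b : ℤ) ^ (n + i) + (r.den : ℤ) * z := by linarith
        exact_mod_cast h1
      exact_mod_cast this
    have hr : (r : ℝ) * r.den = r.num := by exact_mod_cast r.mul_den_eq_num
    show ee _ = ee _
    rw [show n + p + i = n + i + p by ring, hz']
    have : (h : ℝ) * (r * ((b : ℝ) ^ (n + i) + r.den * z)) =
        h * (r * (b : ℝ) ^ (n + i)) + ((h * r.num * z : ℤ) : ℝ) := by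
      push_cast
      rw [← hr]
      ring
    rw [this, ee_add_int]
  have hWi : ∀ h : ℕ, 1 ≤ h → Tendsto (fun N : ℕ =>
      ‖∑ n ∈ range N, ee (h * (x * (b : ℝ) ^ i * (b : ℝ) ^ n))‖ / N) atTop (𝓝 0) := by
    intro h hh
    have h1 := hW (h * b ^ i) (Nat.mul_pos hh (by positivity))
    refine h1.congr fun N => ?_
    congr 2
    refine sum_congr rfl fun n _ => ?_
    congr 1
    push_cast
    ring
  have h2 := per_sum b hb (x * (b : ℝ) ^ i) hWi c p hp hper (fun n => (norm_ee _).le) h hh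
  -- comparison
  rw [Metric.tendsto_atTop] at h2 ⊢
  intro ε hε
  obtain ⟨N0, hN0⟩ := h2 (ε / 2) (by positivity)
  obtain ⟨N1, hN1⟩ := exists_nat_gt (4 * i / ε)
  refine ⟨max (max N0 N1) 1, fun N hN => ?_⟩
  have g1 : N0 ≤ N := (le_max_left _ _).trans ((le_max_left _ _).trans hN)
  have g2 : N1 ≤ N := (le_max_right _ _).trans ((le_max_left _ _).trans hN)
  have g3 : 1 ≤ N := (le_max_right _ _).trans hN
  have hNR : (0 : ℝ) < N := by exact_mod_cast (by omega : 0 < N)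
  have hNb : 4 * i ≤ ε * N := by
    have : 4 * i / ε ≤ N := hN1.le.trans (by exact_mod_cast g2)
    rw [div_le_iff₀ hε] at this
    linarith
  have h3 := hN0 N g1
  rw [Real.dist_eq, sub_zero, abs_of_nonneg (by positivity), div_lt_iff₀ hNR] at h3 ⊢
  have h4 := sum_shift (fun n => ee (h * ((x + r) * (b : ℝ) ^ n))) (fun n => (norm_ee _).le) i N
  have e : ∑ n ∈ range N, c n * ee (h * (x * (b : ℝ) ^ i * (b : ℝ) ^ n)) =
      ∑ n ∈ range N, ee (h * ((x + r) * (b : ℝ) ^ (i + n))) := by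
    refine sum_congr rfl fun n _ => ?_
    rw [hc]
    simp only
    rw [← ee_add]
    congr 1
    rw [pow_add, pow_add]
    ring
  rw [e] at h3
  have h5 : ∑ n ∈ range N, ee (h * ((x + r) * (b : ℝ) ^ n)) =
      ∑ n ∈ range N, ee (h * ((x + r) * (b : ℝ) ^ (i + n))) -
      (∑ n ∈ range N, ee (h * ((x + r) * (b : ℝ) ^ (i + n))) -
        ∑ n ∈ range N, ee (h * ((x + r) * (b : ℝ) ^ n))) := by ring
  show ‖∑ n ∈ range N, ee (h * ((x + r) * (b : ℝ) ^ n))‖ < _
  rw [h5]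
  refine (norm_sub_le _ _).trans_lt ?_
  linarith

end Pool.Agent.N787.RT
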