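import Pool.Agent.N787.RT.Sum
import Pool.Agent.N915.ML.Fin

/-! # The criterion at a finite stage -/

set_option autoImplicit false

namespace Pool.Agent.N787.RT

open Finset Filter Topology
open Pool.Agent.H807R2.Dav (ee norm_ee ee_add ee_zero ee_int ee_add_int ee_pow ee_eq dd dd_nonneg
  dd_neg dd_add_int dd_le dd_ge)
open Pool.Agent.N915.ML (vis digit count IsWord Freq Normal val count_eq val_bounds disc_gen)

/-- the number of `1 ≤ i ≤ N` such that the `i`-th digit is `d` -/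
noncomputable def dcount (b : ℕ) (x : ℝ) (d N : ℕ) : ℕ :=
  ((Icc 1 N).filter fun i => digit b x i = (d : ℤ)).card

lemma dcount_eq_count (b : ℕ) (x : ℝ) (d N : ℕ) :
    dcount b x d N = count b x 1 (fun _ => (d : ℤ)) N := by
  unfold dcount count
  congr 1
  apply filter_congr
  intro i _
  constructor
  · intro h j hj
    have : j = 0 := by omega
    subst this
    exact h
  · intro h
    exact h 0 one_pos

lemma dcount_eq (b d : ℕ) (hb : 2 ≤ b) (hd : d < b) (x : ℝ) (N : ℕ) :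
    (dcount b x d N : ℝ) = ∑ k ∈ range N, ind (d / b) ((d + 1) / b) (x * (b : ℝ) ^ k) := by
  have hw : IsWord b 1 (fun _ => (d : ℤ)) := fun j _ => ⟨by positivity, by
    show (d : ℤ) < b
    exact_mod_cast hd⟩
  rw [dcount_eq_count, count_eq b (by omega) x 1 _ hw N]
  have hval : val b (fun _ => (d : ℤ)) 1 = d := by
    show val b _ 0 * b + (d : ℤ) = d
    show (0 : ℤ) * b + (d : ℤ) = d
    ring
  rw [hval]
  unfold vis ind
  rw [card_filter]
  push_cast
  refine sum_congr rfl fun k _ => ?_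
  rw [pow_one]

lemma AA_eq (b D d : ℕ) (hb : 2 ≤ b) (hd : d < b) (x : ℝ) (N m : ℕ) :
    AA b D d x N m = (dcount b (x + m / D) d N : ℝ) - N / b := by
  unfold AA
  rw [sum_sub_distrib, sum_const, card_range, nsmul_eq_mul, dcount_eq b d hb hd]
  ring

/-- the mean value over the translates -/
lemma mean_bound (b p D d : ℕ) (hb : 2 ≤ b) (hp : 1 ≤ p) (hD1 : 1 ≤ D) (hD : D + 1 = b ^ p)
    (hd : d < b) (x : ℝ) (N : ℕ) : |∑ m ∈ range D, AA b D d x N m| ≤ N := by
  have hb0 : (0 : ℝ) < b := by exact_mod_cast (by omega : 0 < b)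
  have hD0 : (0 : ℝ) < D := by exact_mod_cast hD1
  have hα0 : (0 : ℝ) ≤ d / b := by positivity
  have hαβ : (d : ℝ) / b < (d + 1) / b := by
    apply div_lt_div_of_pos_right _ hb0
    linarith
  have hβ1 : ((d : ℝ) + 1) / b ≤ 1 := by
    rw [div_le_one hb0]
    exact_mod_cast hd
  unfold AA
  rw [sum_comm]
  refine (abs_sum_le_sum_abs _ _).trans ?_
  have h1 : ∀ k ∈ range N, |∑ m ∈ range D, (ind ((d : ℝ) / b) (((d : ℝ) + 1) / b)
      ((x + m / D) * (b : ℝ) ^ k) - 1 / b)| ≤ 1 := by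
    intro k _
    have h2 := coef_k b p D 0 hp hD1 hD ((d : ℝ) / b) (((d : ℝ) + 1) / b) x 0 ((p - 1) * k) k (by
      rw [Nat.sub_mul, one_mul, Nat.sub_add_cancel (Nat.le_mul_of_pos_left k (by omega)),
        Nat.mul_mod_right, Nat.zero_mod])
    have h3 : ∑ m ∈ range D, ind ((d : ℝ) / b) (((d : ℝ) + 1) / b) ((x + m / D) * (b : ℝ) ^ k) =
        ∑ m ∈ range D, ind ((d : ℝ) / b) (((d : ℝ) + 1) / b) (x * (b : ℝ) ^ k + m / D) := by
      unfold GG at h2
      simp only [zero_mul, Nat.cast_zero, zero_div, neg_zero, ee_zero, one_mul] at h2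
      exact_mod_cast h2
    rw [sum_sub_distrib, h3]
    set y := x * (b : ℝ) ^ k
    have h4 : ∀ m ∈ range D, ind ((d : ℝ) / b) (((d : ℝ) + 1) / b) (y + m / D) =
        1 / b + Int.fract (y - ((d : ℝ) + 1) / b + m / D) - Int.fract (y - (d : ℝ) / b + m / D) := by
      intro m _
      rw [ind_eq _ _ _ hα0 hαβ hβ1]
      rw [show y + (m : ℝ) / D - ((d : ℝ) + 1) / b = y - ((d : ℝ) + 1) / b + m / D by ring,
        show y + (m : ℝ) / D - (d : ℝ) / b = y - (d : ℝ) / b + m / D by ring]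
      ring
    rw [sum_congr rfl h4, sum_sub_distrib, sum_add_distrib, sum_fract D hD1, sum_fract D hD1]
    have f1 := Int.fract_nonneg (D * (y - ((d : ℝ) + 1) / b))
    have f2 := Int.fract_lt_one (D * (y - ((d : ℝ) + 1) / b))
    have f3 := Int.fract_nonneg (D * (y - (d : ℝ) / b))
    have f4 := Int.fract_lt_one (D * (y - (d : ℝ) / b))
    rw [abs_le]
    constructor <;> linarith
  refine (sum_le_sum h1).trans (le_of_eq ?_)
  rw [sum_const, card_range, nsmul_eq_mul, mul_one]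

/-- one-sided bounds suffice -/
lemma onesided (D : ℕ) (A : ℕ → ℝ) (N T δ : ℝ) (hN : 0 ≤ N) (hδ : 0 ≤ δ) (E : Finset ℕ)
    (h1 : ∀ m < D, m ∉ E → A m ≤ δ * N) (h2 : ∀ m < D, A m ≤ N)
    (h3 : |∑ m ∈ range D, A m| ≤ T) :
    ∑ m ∈ range D, |A m| ≤ 2 * (δ * N * D + E.card * N) + T := by
  classical
  have h4 : ∀ m ∈ range D, |A m| ≤ 2 * (δ * N + if m ∈ E then N else 0) - A m := by
    intro m hm
    rw [mem_range] at hm
    have hδN : 0 ≤ δ * N := mul_nonneg hδ hN
    rcases le_or_gt 0 (A m) with h | h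
    · rw [abs_of_nonneg h]
      by_cases hE : m ∈ E
      · rw [if_pos hE]
        have := h2 m hm
        linarith
      · rw [if_neg hE]
        have := h1 m hm hE
        linarith
    · rw [abs_of_neg h]
      split_ifs <;> linarith
  refine (sum_le_sum h4).trans ?_
  rw [sum_sub_distrib, ← mul_sum, sum_add_distrib, sum_const, card_range, nsmul_eq_mul]
  have h5 : ∑ m ∈ range D, (if m ∈ E then N else 0) ≤ E.card * N := by
    rw [← sum_filter, sum_const, nsmul_eq_mul]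
    apply mul_le_mul_of_nonneg_right _ hN
    have : ((range D).filter (fun m => m ∈ E)).card ≤ E.card :=
      card_le_card fun m hm => (mem_filter.1 hm).2
    exact_mod_cast this
  have h6 := (abs_le.1 h3).1
  nlinarith

lemma shift_bound (b t v : ℕ) (x : ℝ) (N : ℕ) :
    ‖∑ k ∈ range N, ee (((b ^ v * t : ℕ) : ℝ) * (x * (b : ℝ) ^ k))‖ ≤
      ‖∑ k ∈ range N, ee (t * (x * (b : ℝ) ^ k))‖ + 2 * v := by
  let f : ℕ → ℂ := fun k => ee (t * (x * (b : ℝ) ^ k))
  have h1 : ∑ k ∈ range N, ee (((b ^ v * t : ℕ) : ℝ) * (x * (b : ℝ) ^ k)) =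
      ∑ k ∈ range N, f (v + k) := by
    refine sum_congr rfl fun k _ => ?_
    show _ = ee _
    congr 1
    rw [pow_add]
    push_cast
    ring
  have h2 : ∑ k ∈ range (v + N), f k = ∑ k ∈ range v, f k + ∑ k ∈ range N, f (v + k) :=
    sum_range_add _ _ _
  have h3 : ∑ k ∈ range (N + v), f k = ∑ k ∈ range N, f k + ∑ k ∈ range v, f (N + k) :=
    sum_range_add _ _ _
  rw [add_comm v N] at h2
  have h4 : ∑ k ∈ range N, f (v + k) =
      ∑ k ∈ range N, f k + (∑ k ∈ range v, f (N + k) - ∑ k ∈ range v, f k) := by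
    rw [h3] at h2
    linear_combination -h2
  rw [h1, h4]
  refine (norm_add_le _ _).trans ?_
  have h5 : ∀ g : ℕ → ℕ, ‖∑ k ∈ range v, f (g k)‖ ≤ v := by
    intro g
    refine (norm_sum_le _ _).trans (le_of_eq ?_)
    have : ∀ k ∈ range v, ‖f (g k)‖ = 1 := fun k _ => norm_ee _
    rw [sum_congr rfl this, sum_const, card_range, nsmul_eq_mul, mul_one]
  have h6 := norm_sub_le (∑ k ∈ range v, f (N + k)) (∑ k ∈ range v, f k)
  have h7 := h5 fun k => N + k
  have h8 := h5 fun k => k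
  linarith

/-- `p / (b ^ p - 1)` is small -/
lemma small_quot (b : ℕ) (hb : 2 ≤ b) (η : ℝ) (hη : 0 < η) : ∃ P : ℕ, 1 ≤ P ∧ ∀ p, P ≤ p →
    ∀ D : ℕ, D + 1 = b ^ p → (p : ℝ) ≤ η * D := by
  obtain ⟨M, hM⟩ := exists_nat_gt (4 / η)
  refine ⟨M + 4, by omega, fun p hp D hD => ?_⟩
  have h1 : p * p ≤ 2 ^ p := by
    have h2 : ∀ n : ℕ, (n + 4) * (n + 4) ≤ 2 ^ (n + 4) := by
      intro n
      induction n with
      | zero => norm_num
      | succ n ih =>
        have : 2 ^ (n + 1 + 4) = 2 * 2 ^ (n + 4) := by ring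
        rw [this]
        nlinarith
    obtain ⟨n, rfl⟩ : ∃ n, p = n + 4 := ⟨p - 4, by omega⟩
    exact h2 n
  have h2 : 2 ^ p ≤ b ^ p := Nat.pow_le_pow_left hb p
  have h3 : p * p ≤ D + 1 := by omega
  have h4 : (p : ℝ) * p ≤ D + 1 := by exact_mod_cast h3
  have h5 : (4 : ℝ) ≤ p := by exact_mod_cast (by omega : 4 ≤ p)
  have h6 : 4 / η ≤ p := hM.le.trans (by exact_mod_cast (by omega : M ≤ p))
  rw [div_le_iff₀ hη] at h6
  have h7 : (p : ℝ) * p ≤ 2 * D := by nlinarith
  have h8 : (p : ℝ) * 4 ≤ p * (p * η) := mul_le_mul_of_nonneg_left h6 (by linarith)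
  nlinarith

/-- discrepancy from the mean of `|A_m|` -/
lemma stage_core (b d : ℕ) (hb : 2 ≤ b) (hd : d < b) (ε : ℝ) (hε : 0 < ε) :
    ∃ η : ℝ, 0 < η ∧ ∃ P : ℕ, 1 ≤ P ∧ ∃ N0 : ℕ, ∀ p D : ℕ, P ≤ p → D + 1 = b ^ p →
      ∀ (x : ℝ) (N : ℕ), N0 ≤ N →
        p * ∑ m ∈ range D, |AA b D d x N m| ≤ η * D * N →
        ∀ s t : ℝ, 0 ≤ s → s < t → t ≤ 1 →
          |(vis (range N) (fun n => x * (b : ℝ) ^ n) s t : ℝ) - (t - s) * N| ≤ ε * N := by
  obtain ⟨K, hK⟩ := exists_nat_gt (max 1 (64 / ε ^ 2))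
  have hK1 : (1 : ℝ) < K := lt_of_le_of_lt (le_max_left _ _) hK
  have hK2 : 64 / ε ^ 2 < K := lt_of_le_of_lt (le_max_right _ _) hK
  have hK0 : (0 : ℝ) < K := by linarith
  have hK1' : 1 ≤ K := by exact_mod_cast hK1.le
  have hb0 : (0 : ℝ) < b := by exact_mod_cast (by omega : 0 < b)
  set w : ℝ := ε / (4 * K) with hw
  have hw0 : 0 < w := by positivity
  set η : ℝ := w / (16 * b * K) with hη
  have hη0 : 0 < η := by positivity
  obtain ⟨P1, hP1, H1⟩ := small_quot b hb (η / (9 * K)) (by positivity)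
  obtain ⟨P2, hP2, H2⟩ := small_quot b hb (1 / (2 * K)) (by positivity)
  obtain ⟨N0, hN0⟩ := exists_nat_gt (4 * K / w)
  refine ⟨η, hη0, max P1 P2, hP1.trans (le_max_left _ _), N0,
    fun p D hp hD x N hN hA s t h0 h1 h2 => ?_⟩
  have hp1 : 1 ≤ p := hP1.trans ((le_max_left _ _).trans hp)
  have g1 := H1 p ((le_max_left _ _).trans hp) D hD
  have g2 := H2 p ((le_max_right _ _).trans hp) D hD
  have hp0 : (1 : ℝ) ≤ p := by exact_mod_cast hp1
  have hDK : 2 * (K : ℝ) ≤ D := by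
    have : (1 : ℝ) ≤ 1 / (2 * K) * D := hp0.trans g2
    rw [one_div, inv_mul_eq_div, le_div_iff₀ (by positivity)] at this
    linarith
  have hD0 : (0 : ℝ) < D := by linarith
  have hNw : 4 * K ≤ w * N := by
    have : 4 * K / w ≤ N := hN0.le.trans (by exact_mod_cast hN)
    rw [div_le_iff₀ hw0] at this
    linarith
  have hNn : (0 : ℝ) ≤ N := Nat.cast_nonneg _
  have hT : ∀ h : ℕ, 1 ≤ h → h ≤ K → ‖∑ n ∈ range N, ee (h * (x * (b : ℝ) ^ n))‖ ≤ w * N := by
    intro h hh hhK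
    obtain ⟨v, t', ht', rfl⟩ := Nat.exists_eq_pow_mul_and_not_dvd (by omega : h ≠ 0) b (by omega)
    have ht1 : 1 ≤ t' := Nat.one_le_iff_ne_zero.2 (by
      rintro rfl
      simp at hh)
    have hbv : v < b ^ v := Nat.lt_pow_self (by omega)
    have hvK : v ≤ K := by
      have : b ^ v ≤ b ^ v * t' := Nat.le_mul_of_pos_right _ (by omega)
      omega
    have htK : t' ≤ K := by
      have : t' ≤ b ^ v * t' := Nat.le_mul_of_pos_left _ (by positivity)
      omega
    have htKR : (t' : ℝ) ≤ K := by exact_mod_cast htK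
    have hvKR : (v : ℝ) ≤ K := by exact_mod_cast hvK
    have ht1R : (1 : ℝ) ≤ t' := by exact_mod_cast ht1
    refine (shift_bound b t' v x N).trans ?_
    have h2t : 2 * t' ≤ D := by
      have : 2 * (t' : ℝ) ≤ D := by linarith
      exact_mod_cast this
    have h3 := weyl_translates b p D t' d hb hp1 hD ht1 ht' h2t hd x N
    have h4 : 4 * (b : ℝ) * t' * p / D * (∑ m ∈ range D, |AA b D d x N m| + 9 * t' * N) ≤
        w / 2 * N := by
      have h5 : 4 * (b : ℝ) * t' * p / D * (∑ m ∈ range D, |AA b D d x N m| + 9 * t' * N) =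
          4 * b * t' * (p * ∑ m ∈ range D, |AA b D d x N m| + 9 * t' * p * N) / D := by
        ring
      rw [h5, div_le_iff₀ hD0]
      have h6 : 9 * (t' : ℝ) * p * N ≤ η * D * N := by
        apply mul_le_mul_of_nonneg_right _ hNn
        calc 9 * (t' : ℝ) * p ≤ 9 * K * (η / (9 * K) * D) := by
              apply mul_le_mul _ g1 (by positivity) (by positivity)
              linarith
          _ = η * D := by field_simp
      have h7 : 4 * (b : ℝ) * t' * (p * ∑ m ∈ range D, |AA b D d x N m| + 9 * t' * p * N) ≤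
          4 * b * K * (2 * (η * D * N)) := by
        apply mul_le_mul _ (by linarith) _ (by positivity)
        · apply mul_le_mul_of_nonneg_left htKR (by positivity)
        · have : 0 ≤ ∑ m ∈ range D, |AA b D d x N m| := sum_nonneg fun m _ => abs_nonneg _
          positivity
      refine h7.trans (le_of_eq ?_)
      rw [hη]
      field_simp
      norm_num
    have h5 : 2 * (v : ℝ) ≤ w / 2 * N := by linarith
    linarith
  have hdg := disc_gen (range N) (fun n => x * (b : ℝ) ^ n) K hK1' _ hT s t h0 h1 h2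
  rw [card_range] at hdg
  refine hdg.trans ?_
  have h3 : 2 * (K * (w * (N : ℝ))) = ε / 2 * N := by
    rw [hw]
    field_simp
    norm_num
  have h4 : 2 * (2 * (N : ℝ) / √K) ≤ ε / 2 * N := by
    have h7 : 8 / ε ≤ √(K : ℝ) := by
      apply Real.le_sqrt_of_sq_le
      have : (8 / ε) ^ 2 = 64 / ε ^ 2 := by ring
      rw [this]
      exact hK2.le
    have hsK : 0 < √(K : ℝ) := Real.sqrt_pos.2 hK0
    have h8 : 2 * (2 * (N : ℝ) / √K) = 4 * N / √K := by ring
    rw [h8, div_le_iff₀ hsK]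
    rw [div_le_iff₀ hε] at h7
    nlinarith
  linarith

end Pool.Agent.N787.RT
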