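import Pool.Agent.N787.RT.Coef

/-! # Weyl sums of `b ^ k x` from the digits of the translates `x + m / (b ^ p - 1)` -/

set_option autoImplicit false

namespace Pool.Agent.N787.RT

open Finset
open Pool.Agent.H807R2.Dav (ee norm_ee ee_add ee_zero ee_int ee_add_int ee_pow ee_eq dd dd_nonneg
  dd_neg dd_add_int dd_le dd_ge)

/-- excess of the number of visits of the `m`-th translate -/
noncomputable def AA (b D d : ℕ) (x : ℝ) (N m : ℕ) : ℝ :=
  ∑ k ∈ range N, (ind (d / b) ((d + 1) / b) ((x + m / D) * (b : ℝ) ^ k) - 1 / b)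

lemma ee_one {x : ℝ} (h : ee x = 1) : ∃ n : ℤ, x = n := by
  unfold ee at h
  rw [Complex.exp_eq_one_iff] at h
  obtain ⟨n, hn⟩ := h
  refine ⟨n, ?_⟩
  have h1 : (2 * Real.pi * Complex.I : ℂ) ≠ 0 := Complex.two_pi_I_ne_zero
  have h2 : (2 * Real.pi * Complex.I : ℂ) * (x : ℂ) = (2 * Real.pi * Complex.I) * n := by
    rw [hn]
    ring
  exact_mod_cast mul_left_cancel₀ h1 h2

lemma coprime_D (b p D : ℕ) (hp : 1 ≤ p) (hD : D + 1 = b ^ p) (k : ℕ) :
    IsCoprime ((b : ℤ) ^ k) (D : ℤ) := by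
  apply IsCoprime.pow_left
  refine ⟨(b : ℤ) ^ (p - 1), -1, ?_⟩
  have h1 : (b : ℤ) ^ (p - 1) * b = D + 1 := by
    rw [← pow_succ, show p - 1 + 1 = p by omega]
    exact_mod_cast hD.symm
  rw [h1]
  ring

lemma pow_modEq (b p D : ℕ) (hD : D + 1 = b ^ p) (i j : ℕ) (h : i % p = j % p) :
    (D : ℤ) ∣ (b : ℤ) ^ i - (b : ℤ) ^ j := by
  have h1 : ∀ i : ℕ, (b : ℤ) ^ i ≡ (b : ℤ) ^ (i % p) [ZMOD D] := by
    intro i
    have h2 : (b : ℤ) ^ p ≡ 1 [ZMOD D] := by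
      rw [Int.modEq_iff_dvd]
      refine ⟨-1, ?_⟩
      have : (b : ℤ) ^ p = D + 1 := by exact_mod_cast hD.symm
      rw [this]
      ring
    conv_lhs => rw [← Nat.mod_add_div i p, pow_add, pow_mul]
    have h3 := (h2.pow (i / p)).mul_left ((b : ℤ) ^ (i % p))
    rwa [one_pow, mul_one] at h3
  have h2 := h1 i
  have h3 := h1 j
  rw [h] at h2
  exact (Int.modEq_iff_dvd.1 (h3.trans h2.symm))

lemma coef_k (b p D t : ℕ) (hp : 1 ≤ p) (hD1 : 1 ≤ D) (hD : D + 1 = b ^ p)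
    (α β x : ℝ) (c a k : ℕ) (h : (a + k) % p = c % p) :
    ∑ m ∈ range D, ee (-(((t * b ^ c : ℕ) : ℝ) * m / D)) *
        ((ind α β ((x + m / D) * (b : ℝ) ^ k) : ℝ) : ℂ) =
      GG D (t * b ^ a) α β (x * (b : ℝ) ^ k) := by
  have hD0 : (D : ℝ) ≠ 0 := by positivity
  let g : ℤ → ℂ := fun m => ee (-(((t * b ^ a : ℕ) : ℝ) * m / D)) *
    ((ind α β (x * (b : ℝ) ^ k + m / D) : ℝ) : ℂ)
  have hg : ∀ m : ℤ, g (m + D) = g m := by
    intro m
    show ee _ * _ = ee _ * _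
    have e1 : -(((t * b ^ a : ℕ) : ℝ) * ((m + D : ℤ) : ℝ) / D) =
        -(((t * b ^ a : ℕ) : ℝ) * m / D) + ((-((t * b ^ a : ℕ) : ℤ) : ℤ) : ℝ) := by
      push_cast
      field_simp
      ring
    have e2 : x * (b : ℝ) ^ k + ((m + D : ℤ) : ℝ) / D =
        x * (b : ℝ) ^ k + m / D + ((1 : ℤ) : ℝ) := by
      push_cast
      field_simp
      ring
    rw [e1, ee_add_int, e2, ind_add_int]
  have h1 := sum_periodic D hD1 g hg ((b : ℤ) ^ k) 0 (coprime_D b p D hp hD k)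
  have h2 : GG D (t * b ^ a) α β (x * (b : ℝ) ^ k) = ∑ m ∈ range D, g m := by
    unfold GG
    refine sum_congr rfl fun m _ => ?_
    show _ = ee _ * _
    rw [Int.cast_natCast]
  rw [h2, ← h1]
  obtain ⟨z, hz⟩ := pow_modEq b p D hD (a + k) c h
  have hzR : (b : ℝ) ^ (a + k) = b ^ c + D * z := by
    have h3 : (b : ℤ) ^ (a + k) = b ^ c + D * z := by linarith
    exact_mod_cast h3
  refine sum_congr rfl fun m _ => ?_
  show _ = ee _ * _
  have e1 : -(((t * b ^ a : ℕ) : ℝ) * (((b : ℤ) ^ k * m + 0 : ℤ) : ℝ) / D) =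
      -(((t * b ^ c : ℕ) : ℝ) * m / D) + ((-(t * z * m : ℤ) : ℤ) : ℝ) := by
    push_cast
    have h4 : (t : ℝ) * b ^ a * ((b : ℝ) ^ k * m + 0) = t * b ^ (a + k) * m := by
      rw [pow_add]
      ring
    rw [h4, hzR]
    field_simp
    ring
  have e2 : x * (b : ℝ) ^ k + (((b : ℤ) ^ k * m + 0 : ℤ) : ℝ) / D = (x + m / D) * (b : ℝ) ^ k := by
    push_cast
    ring
  rw [e1, ee_add_int, e2]

lemma geom_zero (b p D t : ℕ) (hp : 1 ≤ p) (hD1 : 1 ≤ D) (hD : D + 1 = b ^ p) (ht : 1 ≤ t)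
    (h2t : 2 * t ≤ D) (c : ℕ) :
    ∑ m ∈ range D, ee (-(((t * b ^ c : ℕ) : ℝ) * m / D)) = 0 := by
  have hD0 : (D : ℝ) ≠ 0 := by positivity
  have h1 : ee (-(((t * b ^ c : ℕ) : ℝ) / D)) ≠ 1 := by
    intro h
    obtain ⟨n, hn⟩ := ee_one h
    have h2 : ((t * b ^ c : ℕ) : ℤ) = D * (-n) := by
      have h3 : ((t * b ^ c : ℕ) : ℝ) = D * (-n) := by
        field_simp at hn
        linarith
      exact_mod_cast h3
    have h3 : (D : ℤ) ∣ (b : ℤ) ^ c * t := ⟨-n, by rw [← h2]; push_cast; ring⟩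
    have h4 := (coprime_D b p D hp hD c).symm.dvd_of_dvd_mul_left h3
    have h5 : D ∣ t := by exact_mod_cast h4
    have := Nat.le_of_dvd (by omega) h5
    omega
  have h2 : ∀ m ∈ range D, ee (-(((t * b ^ c : ℕ) : ℝ) * m / D)) =
      ee (-(((t * b ^ c : ℕ) : ℝ) / D)) ^ m := fun m _ => ee_step D (t * b ^ c) m
  rw [sum_congr rfl h2]
  have h6 := mul_geom_sum (ee (-(((t * b ^ c : ℕ) : ℝ) / D))) D
  rw [ee_period D hD1 (t * b ^ c), sub_self] at h6
  exact (mul_eq_zero.1 h6).resolve_left (sub_ne_zero.2 h1)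

/-- the twisted sum over the translates -/
lemma twisted (b p D t d : ℕ) (hp : 1 ≤ p) (hD1 : 1 ≤ D) (hD : D + 1 = b ^ p) (ht : 1 ≤ t)
    (h2t : 2 * t ≤ D) (x : ℝ) (N c : ℕ) :
    ∑ m ∈ range D, ee (-(((t * b ^ c : ℕ) : ℝ) * m / D)) * ((AA b D d x N m : ℝ) : ℂ) =
      ∑ k ∈ range N, ∑ m ∈ range D, ee (-(((t * b ^ c : ℕ) : ℝ) * m / D)) *
        ((ind (d / b) ((d + 1) / b) ((x + m / D) * (b : ℝ) ^ k) : ℝ) : ℂ) := by
  have h1 : ∀ m ∈ range D, ee (-(((t * b ^ c : ℕ) : ℝ) * m / D)) * ((AA b D d x N m : ℝ) : ℂ) =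
      ∑ k ∈ range N, (ee (-(((t * b ^ c : ℕ) : ℝ) * m / D)) *
        ((ind (d / b) ((d + 1) / b) ((x + m / D) * (b : ℝ) ^ k) : ℝ) : ℂ) -
        ee (-(((t * b ^ c : ℕ) : ℝ) * m / D)) * ((1 / b : ℝ) : ℂ)) := by
    intro m _
    unfold AA
    rw [Complex.ofReal_sum, mul_sum]
    refine sum_congr rfl fun k _ => ?_
    push_cast
    ring
  rw [sum_congr rfl h1, sum_comm]
  refine sum_congr rfl fun k _ => ?_
  rw [sum_sub_distrib, ← sum_mul, geom_zero b p D t hp hD1 hD ht h2t c, zero_mul, sub_zero]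

/-- one residue class of `k` -/
lemma class_bound (b p D t d : ℕ) (hb : 2 ≤ b) (hp : 1 ≤ p) (hD : D + 1 = b ^ p) (ht : 1 ≤ t)
    (hbt : ¬ b ∣ t) (h2t : 2 * t ≤ D) (hd : d < b) (x : ℝ) (N c : ℕ) (hc : c < p) :
    ‖∑ k ∈ (range N).filter (fun k => k % p = c), ee (t * (x * (b : ℝ) ^ k))‖ ≤
      4 * b * t / D * (∑ m ∈ range D, |AA b D d x N m| + 9 * t * N) := by
  have hD1 : 1 ≤ D := by omega
  have hb0 : (0 : ℝ) < b := by exact_mod_cast (by omega : 0 < b)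
  have hD0 : (0 : ℝ) < D := by exact_mod_cast hD1
  have ht1 : (1 : ℝ) ≤ t := by exact_mod_cast ht
  set S := (range N).filter (fun k => k % p = c) with hS
  set κ : ℂ := ee (-(t * (((d : ℝ) + 1) / b))) - ee (-(t * ((d : ℝ) / b))) with hκ
  set w : ℂ := ee (-((t : ℝ) / D)) - 1 with hw
  set Sg : ℝ := ∑ m ∈ range D, |AA b D d x N m| with hSg
  have hSg0 : 0 ≤ Sg := sum_nonneg fun m _ => abs_nonneg _
  let y : ℕ → ℝ := fun k => x * (b : ℝ) ^ k
  let G : ℕ → ℕ → ℂ := fun s k => GG D s ((d : ℝ) / b) (((d : ℝ) + 1) / b) (y k)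
  -- the sum of the diagonal terms
  have hT : ‖∑ m ∈ range D, ee (-(((t * b ^ c : ℕ) : ℝ) * m / D)) * ((AA b D d x N m : ℝ) : ℂ)‖ ≤
      Sg := by
    refine (norm_sum_le _ _).trans (sum_le_sum fun m _ => ?_)
    rw [norm_mul, norm_ee, one_mul, Complex.norm_real, Real.norm_eq_abs]
  rw [twisted b p D t d hp hD1 hD ht h2t x N c,
    ← sum_filter_add_sum_filter_not (range N) (fun k => k % p = c)] at hT
  have h1 : ∀ k ∈ S, ∑ m ∈ range D, ee (-(((t * b ^ c : ℕ) : ℝ) * m / D)) *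
      ((ind (d / b) ((d + 1) / b) ((x + m / D) * (b : ℝ) ^ k) : ℝ) : ℂ) = G t k := by
    intro k hk
    rw [hS, mem_filter] at hk
    have h2 := coef_k b p D t hp hD1 hD ((d : ℝ) / b) (((d : ℝ) + 1) / b) x c 0 k (by
      rw [zero_add, hk.2, Nat.mod_eq_of_lt hc])
    rw [h2, pow_zero, mul_one]
  have h2 : ∀ k ∈ (range N).filter (fun k => ¬ k % p = c),
      ‖∑ m ∈ range D, ee (-(((t * b ^ c : ℕ) : ℝ) * m / D)) *
      ((ind (d / b) ((d + 1) / b) ((x + m / D) * (b : ℝ) ^ k) : ℝ) : ℂ)‖ ≤ 7 * t := by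
    intro k hk
    rw [mem_filter] at hk
    have hkp : k % p < p := Nat.mod_lt _ (by omega)
    obtain ⟨a, ha1, ha2, ha3⟩ : ∃ a, 1 ≤ a ∧ a < p ∧ (a + k) % p = c % p := by
      have e0 := Nat.mod_add_div k p
      rcases Nat.lt_or_ge (k % p) c with h | h
      · refine ⟨c - k % p, by omega, by omega, ?_⟩
        have : c - k % p + k = c + p * (k / p) := by omega
        rw [this, Nat.add_mul_mod_self_left]
      · refine ⟨c + p - k % p, by omega, by omega, ?_⟩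
        have : c + p - k % p + k = c + p * (k / p + 1) := by
          rw [mul_add, mul_one]
          omega
        rw [this, Nat.add_mul_mod_self_left]
    rw [coef_k b p D t hp hD1 hD ((d : ℝ) / b) (((d : ℝ) + 1) / b) x c a k ha3]
    exact GG_off b p D t a d hb hD ht hbt h2t ha1 ha2 hd _
  have h3 : ‖∑ k ∈ S, G t k‖ ≤ Sg + 7 * t * N := by
    rw [sum_congr rfl h1] at hT
    have h4 : ‖∑ k ∈ (range N).filter (fun k => ¬ k % p = c),
        ∑ m ∈ range D, ee (-(((t * b ^ c : ℕ) : ℝ) * m / D)) *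
        ((ind (d / b) ((d + 1) / b) ((x + m / D) * (b : ℝ) ^ k) : ℝ) : ℂ)‖ ≤ 7 * t * N := by
      refine (norm_sum_le _ _).trans ((sum_le_sum h2).trans ?_)
      rw [sum_const, nsmul_eq_mul, mul_comm]
      apply mul_le_mul_of_nonneg_left _ (by positivity)
      have := card_filter_le (range N) (fun k => ¬ k % p = c)
      rw [card_range] at this
      exact_mod_cast this
    have h5 := norm_sub_le (∑ k ∈ S, G t k + ∑ k ∈ (range N).filter (fun k => ¬ k % p = c),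
        ∑ m ∈ range D, ee (-(((t * b ^ c : ℕ) : ℝ) * m / D)) *
        ((ind (d / b) ((d + 1) / b) ((x + m / D) * (b : ℝ) ^ k) : ℝ) : ℂ))
      (∑ k ∈ (range N).filter (fun k => ¬ k % p = c),
        ∑ m ∈ range D, ee (-(((t * b ^ c : ℕ) : ℝ) * m / D)) *
        ((ind (d / b) ((d + 1) / b) ((x + m / D) * (b : ℝ) ^ k) : ℝ) : ℂ))
    rw [add_sub_cancel_right] at h5
    linarith
  -- the exponential sum
  have hwn : ‖w‖ ≤ 2 * Real.pi * (t / D) := by
    rw [hw, ← ee_zero]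
    refine (norm_ee_sub _ _).trans (le_of_eq ?_)
    rw [zero_sub, neg_neg, abs_of_nonneg (by positivity)]
  have h4 : (∑ k ∈ S, ee (t * (x * (b : ℝ) ^ k))) * κ =
      ∑ k ∈ S, (ee (t * y k) * κ - G t k * w) + (∑ k ∈ S, G t k) * w := by
    rw [sum_sub_distrib, sum_mul, sum_mul]
    ring
  have h5 : ‖∑ k ∈ S, (ee (t * y k) * κ - G t k * w)‖ ≤ N * (4 * Real.pi * (t / D)) := by
    refine (norm_sum_le _ _).trans ((sum_le_sum (g := fun _ => 4 * Real.pi * ((t : ℝ) / D))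
      fun k _ => ?_).trans ?_)
    · exact GG_diag b D t d hb hD1 ht h2t hd (y k)
    · rw [sum_const, nsmul_eq_mul]
      apply mul_le_mul_of_nonneg_right _ (by positivity)
      have := card_filter_le (range N) (fun k => k % p = c)
      rw [card_range] at this
      exact_mod_cast this
  have h6 : ‖∑ k ∈ S, ee (t * (x * (b : ℝ) ^ k))‖ * ‖κ‖ ≤
      2 * Real.pi * (t / D) * (Sg + 9 * t * N) := by
    rw [← norm_mul, h4]
    refine (norm_add_le _ _).trans ?_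
    rw [norm_mul]
    have h7 : ‖∑ k ∈ S, G t k‖ * ‖w‖ ≤ (Sg + 7 * t * N) * (2 * Real.pi * (t / D)) :=
      mul_le_mul h3 hwn (norm_nonneg _) (by positivity)
    have h8 : (N : ℝ) * (4 * Real.pi * (t / D)) ≤ 2 * Real.pi * (t / D) * (2 * t * N) := by
      have h9 : 0 ≤ Real.pi * ((t : ℝ) / D) * N := by positivity
      nlinarith
    calc _ ≤ (N : ℝ) * (4 * Real.pi * (t / D)) + (Sg + 7 * t * N) * (2 * Real.pi * (t / D)) :=
          add_le_add h5 h7
      _ ≤ 2 * Real.pi * (t / D) * (2 * t * N) + (Sg + 7 * t * N) * (2 * Real.pi * (t / D)) := by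
          linarith
      _ = _ := by ring
  have h7 := main_coef b t d hb hbt
  have h8 : ‖∑ k ∈ S, ee (t * (x * (b : ℝ) ^ k))‖ * (2 / b) ≤
      2 * Real.pi * (t / D) * (Sg + 9 * t * N) :=
    (mul_le_mul_of_nonneg_left h7 (norm_nonneg _)).trans h6
  have h9 : ‖∑ k ∈ S, ee (t * (x * (b : ℝ) ^ k))‖ =
      ‖∑ k ∈ S, ee (t * (x * (b : ℝ) ^ k))‖ * (2 / b) * (b / 2) := by
    field_simp
  rw [h9]
  calc _ ≤ 2 * Real.pi * (t / D) * (Sg + 9 * t * N) * (b / 2) :=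
        mul_le_mul_of_nonneg_right h8 (by positivity)
    _ = Real.pi * (b * t / D * (Sg + 9 * t * N)) := by ring
    _ ≤ 4 * (b * t / D * (Sg + 9 * t * N)) :=
        mul_le_mul_of_nonneg_right Real.pi_lt_four.le (by positivity)
    _ = _ := by ring

/-- **Weyl sums from the digits of the translates** -/
theorem weyl_translates (b p D t d : ℕ) (hb : 2 ≤ b) (hp : 1 ≤ p) (hD : D + 1 = b ^ p) (ht : 1 ≤ t)
    (hbt : ¬ b ∣ t) (h2t : 2 * t ≤ D) (hd : d < b) (x : ℝ) (N : ℕ) :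
    ‖∑ k ∈ range N, ee (t * (x * (b : ℝ) ^ k))‖ ≤
      4 * b * t * p / D * (∑ m ∈ range D, |AA b D d x N m| + 9 * t * N) := by
  have h1 : ∑ k ∈ range N, ee (t * (x * (b : ℝ) ^ k)) =
      ∑ c ∈ range p, ∑ k ∈ (range N).filter (fun k => k % p = c), ee (t * (x * (b : ℝ) ^ k)) := by
    rw [sum_fiberwise_of_maps_to]
    intro k _
    rw [mem_range]
    exact Nat.mod_lt _ (by omega)
  rw [h1]
  refine (norm_sum_le _ _).trans ((sum_le_sum fun c hc =>
    class_bound b p D t d hb hp hD ht hbt h2t hd x N c (mem_range.1 hc)).trans ?_)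
  rw [sum_const, card_range, nsmul_eq_mul]
  apply le_of_eq
  ring

end Pool.Agent.N787.RT
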