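import Pool.Agent.N787.RT.Stage

/-! # Normal numbers and rational translates -/

set_option autoImplicit false

namespace Pool.Agent.N787.RT

open Finset Filter Topology
open Pool.Agent.H807R2.Dav (ee norm_ee ee_add ee_zero ee_int ee_add_int ee_pow ee_eq)
open Pool.Agent.N915.ML (vis digit count IsWord Freq Normal val count_eq val_bounds disc_gen
  ud_of_normal count_tendsto)
open Pool.Agent.H534R3.UDist (UD Weyl ud_of_weyl)
open Pool.Agent.H534R3.Rota (ud_weyl)

lemma ee_eq_udist (t : ℝ) : Pool.Agent.H534R3.UDist.ee t = ee t := rfl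

lemma conj_ee (t : ℝ) : (starRingEnd ℂ) (ee t) = ee (-t) := by
  rw [ee_eq, ee_eq, ← Complex.exp_conj, map_mul, Complex.conj_ofReal, Complex.conj_I]
  congr 1
  push_cast
  ring

/-- a shift changes a sum little -/
lemma sum_shift (g : ℕ → ℂ) (hg : ∀ n, ‖g n‖ ≤ 1) (v N : ℕ) :
    ‖∑ k ∈ range N, g (v + k) - ∑ k ∈ range N, g k‖ ≤ 2 * v := by
  have h2 : ∑ k ∈ range (v + N), g k = ∑ k ∈ range v, g k + ∑ k ∈ range N, g (v + k) :=
    sum_range_add _ _ _
  have h3 : ∑ k ∈ range (N + v), g k = ∑ k ∈ range N, g k + ∑ k ∈ range v, g (N + k) :=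
    sum_range_add _ _ _
  rw [add_comm v N] at h2
  have h4 : ∑ k ∈ range N, g (v + k) - ∑ k ∈ range N, g k =
      (∑ k ∈ range v, g (N + k) - ∑ k ∈ range v, g k) := by
    rw [h3] at h2
    linear_combination -h2
  rw [h4]
  have h5 : ∀ r : ℕ → ℕ, ‖∑ k ∈ range v, g (r k)‖ ≤ v := by
    intro r
    refine (norm_sum_le _ _).trans ?_
    refine (sum_le_sum fun k _ => hg (r k)).trans (le_of_eq ?_)
    rw [sum_const, card_range, nsmul_eq_mul, mul_one]
  have h6 := norm_sub_le (∑ k ∈ range v, g (N + k)) (∑ k ∈ range v, g k)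
  have h7 := h5 fun k => N + k
  have h8 := h5 fun k => k
  linarith

lemma per_iter (c : ℕ → ℂ) (p : ℕ) (hc : ∀ n, c (n + p) = c n) (l n : ℕ) : c (p * l + n) = c n := by
  induction l with
  | zero => rw [mul_zero, zero_add]
  | succ l ih =>
    rw [show p * (l + 1) + n = p * l + n + p by ring, hc, ih]

lemma sq_expand (L : ℕ) (f : ℕ → ℝ) :
    ((‖∑ l ∈ range L, ee (f l)‖ ^ 2 : ℝ) : ℂ) = ∑ l ∈ range L, ∑ l' ∈ range L, ee (f l - f l') := by
  rw [← Complex.normSq_eq_norm_sq, ← Complex.mul_conj, map_sum, sum_mul_sum]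
  refine sum_congr rfl fun l _ => sum_congr rfl fun l' _ => ?_
  rw [conj_ee, ← ee_add]
  congr 1

/-- exponential sums with periodic coefficients -/
theorem per_sum (b : ℕ) (hb : 2 ≤ b) (x : ℝ)
    (hx : ∀ h : ℕ, 1 ≤ h → Tendsto (fun N : ℕ => ‖∑ n ∈ range N, ee (h * (x * (b : ℝ) ^ n))‖ / N)
      atTop (𝓝 0)) (c : ℕ → ℂ) (p : ℕ) (hp : 1 ≤ p) (hc : ∀ n, c (n + p) = c n)
    (hc1 : ∀ n, ‖c n‖ ≤ 1) (h : ℕ) (hh : 1 ≤ h) :
    Tendsto (fun N : ℕ => ‖∑ n ∈ range N, c n * ee (h * (x * (b : ℝ) ^ n))‖ / N)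
      atTop (𝓝 0) := by
  rw [Metric.tendsto_atTop]
  intro ε hε
  obtain ⟨L, hL⟩ := exists_nat_gt (max 1 (32 / ε ^ 2))
  have hL1 : (1 : ℝ) < L := lt_of_le_of_lt (le_max_left _ _) hL
  have hL2 : 32 / ε ^ 2 < L := lt_of_le_of_lt (le_max_right _ _) hL
  have hL0 : (0 : ℝ) < L := by linarith
  -- off-diagonal terms
  have hoff : ∀ l ∈ range L, ∀ l' ∈ range L, l ≠ l' → ∀ᶠ N : ℕ in atTop,
      ‖∑ n ∈ range N, ee (h * (x * (b : ℝ) ^ n) * ((b : ℝ) ^ (p * l) - (b : ℝ) ^ (p * l')))‖ ≤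
        N / L := by
    have hlt : ∀ l l' : ℕ, l' < l → ∀ᶠ N : ℕ in atTop,
        ‖∑ n ∈ range N, ee (h * (x * (b : ℝ) ^ n) * ((b : ℝ) ^ (p * l) - (b : ℝ) ^ (p * l')))‖ ≤
          N / L := by
      intro l l' hll
      have hpow : b ^ (p * l') < b ^ (p * l) :=
        Nat.pow_lt_pow_right (by omega) (Nat.mul_lt_mul_of_pos_left hll (by omega))
      have h1 := hx (h * (b ^ (p * l) - b ^ (p * l'))) (Nat.mul_pos hh (by omega))
      rw [Metric.tendsto_atTop] at h1
      obtain ⟨N0, hN0⟩ := h1 (1 / L) (by positivity)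
      filter_upwards [eventually_ge_atTop N0, eventually_gt_atTop 0] with N hN hN'
      have hNR : (0 : ℝ) < N := by exact_mod_cast hN'
      have h2 := hN0 N hN
      rw [Real.dist_eq, sub_zero, abs_of_nonneg (by positivity), div_lt_iff₀ hNR] at h2
      have e : ∀ n ∈ range N, ee (h * (x * (b : ℝ) ^ n) *
          ((b : ℝ) ^ (p * l) - (b : ℝ) ^ (p * l'))) =
          ee (((h * (b ^ (p * l) - b ^ (p * l')) : ℕ) : ℝ) * (x * (b : ℝ) ^ n)) := by
        intro n _
        congr 1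
        rw [Nat.cast_mul, Nat.cast_sub hpow.le]
        push_cast
        ring
      rw [sum_congr rfl e]
      refine h2.le.trans (le_of_eq ?_)
      ring
    intro l _ l' _ hne
    rcases lt_or_gt_of_ne hne with hlt' | hgt
    · have h1 := hlt l' l hlt'
      filter_upwards [h1] with N hN
      refine le_trans (le_of_eq ?_) hN
      rw [← Complex.norm_conj, map_sum]
      congr 1
      refine sum_congr rfl fun n _ => ?_
      rw [conj_ee]
      congr 1
      ring
    · exact hlt l l' hgt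
  have hall : ∀ᶠ N : ℕ in atTop, ∀ l ∈ range L, ∀ l' ∈ range L, l ≠ l' →
      ‖∑ n ∈ range N, ee (h * (x * (b : ℝ) ^ n) * ((b : ℝ) ^ (p * l) - (b : ℝ) ^ (p * l')))‖ ≤
        N / L := by
    rw [eventually_all_finset]
    intro l hl
    rw [eventually_all_finset]
    intro l' hl'
    by_cases hne : l = l'
    · exact Eventually.of_forall fun N hN => absurd hne hN
    · filter_upwards [hoff l hl l' hl' hne] with N hN _
      exact hN
  obtain ⟨N1, hN1⟩ := eventually_atTop.1 hall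
  obtain ⟨N2, hN2⟩ := exists_nat_gt (4 * p * L / ε)
  refine ⟨max (max N1 N2) 1, fun N hN => ?_⟩
  have g1 : N1 ≤ N := (le_max_left _ _).trans ((le_max_left _ _).trans hN)
  have g2 : N2 ≤ N := (le_max_right _ _).trans ((le_max_left _ _).trans hN)
  have g3 : 1 ≤ N := (le_max_right _ _).trans hN
  have hNR : (0 : ℝ) < N := by exact_mod_cast (by omega : 0 < N)
  have hoffN := hN1 N g1
  have hNb : 4 * p * L ≤ ε * N := by
    have : 4 * p * L / ε ≤ N := hN2.le.trans (by exact_mod_cast g2)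
    rw [div_le_iff₀ hε] at this
    linarith
  rw [Real.dist_eq, sub_zero, abs_of_nonneg (by positivity), div_lt_iff₀ hNR]
  set S : ℂ := ∑ n ∈ range N, c n * ee (h * (x * (b : ℝ) ^ n)) with hS
  set F : ℕ → ℂ := fun n => ∑ l ∈ range L, ee (h * (x * (b : ℝ) ^ n) * (b : ℝ) ^ (p * l)) with hF
  -- averaging
  have h1 : ‖∑ n ∈ range N, c n * F n - L * S‖ ≤ L * (2 * (p * L)) := by
    have e1 : ∑ n ∈ range N, c n * F n - L * S = ∑ l ∈ range L,
        (∑ n ∈ range N, c (p * l + n) * ee (h * (x * (b : ℝ) ^ (p * l + n))) - S) := by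
      rw [sum_sub_distrib, sum_const, card_range, nsmul_eq_mul, sum_comm]
      congr 1
      refine sum_congr rfl fun n _ => ?_
      rw [hF]
      simp only
      rw [mul_sum]
      refine sum_congr rfl fun l _ => ?_
      rw [per_iter c p hc]
      congr 2
      rw [pow_add]
      ring
    rw [e1]
    refine (norm_sum_le _ _).trans ?_
    have e2 : ∀ l ∈ range L, ‖∑ n ∈ range N, c (p * l + n) *
        ee (h * (x * (b : ℝ) ^ (p * l + n))) - S‖ ≤ 2 * (p * L) := by
      intro l hl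
      refine (sum_shift (fun n => c n * ee (h * (x * (b : ℝ) ^ n))) (fun n => ?_) (p * l) N).trans ?_
      · rw [norm_mul, norm_ee, mul_one]
        exact hc1 n
      · have : (l : ℝ) ≤ L := by exact_mod_cast (mem_range.1 hl).le
        push_cast
        have hp0 : (0 : ℝ) ≤ p := Nat.cast_nonneg _
        nlinarith
    refine (sum_le_sum e2).trans (le_of_eq ?_)
    rw [sum_const, card_range, nsmul_eq_mul]
  -- the mean square
  have h2 : ∑ n ∈ range N, ‖F n‖ ^ 2 ≤ 2 * L * N := by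
    have e1 : ((∑ n ∈ range N, ‖F n‖ ^ 2 : ℝ) : ℂ) = ∑ l ∈ range L, ∑ l' ∈ range L,
        ∑ n ∈ range N, ee (h * (x * (b : ℝ) ^ n) * ((b : ℝ) ^ (p * l) - (b : ℝ) ^ (p * l'))) := by
      rw [Complex.ofReal_sum]
      have : ∀ n ∈ range N, ((‖F n‖ ^ 2 : ℝ) : ℂ) = ∑ l ∈ range L, ∑ l' ∈ range L,
          ee (h * (x * (b : ℝ) ^ n) * ((b : ℝ) ^ (p * l) - (b : ℝ) ^ (p * l'))) := by
        intro n _
        rw [hF]
        simp only
        rw [sq_expand]
        refine sum_congr rfl fun l _ => sum_congr rfl fun l' _ => ?_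
        congr 1
        ring
      rw [sum_congr rfl this, sum_comm]
      refine sum_congr rfl fun l _ => ?_
      rw [sum_comm]
    have e2 : ∑ n ∈ range N, ‖F n‖ ^ 2 = ‖∑ l ∈ range L, ∑ l' ∈ range L,
        ∑ n ∈ range N, ee (h * (x * (b : ℝ) ^ n) * ((b : ℝ) ^ (p * l) - (b : ℝ) ^ (p * l')))‖ := by
      rw [← e1, Complex.norm_real, Real.norm_of_nonneg]
      exact sum_nonneg fun n _ => by positivity
    rw [e2]
    refine (norm_sum_le _ _).trans ?_
    have e3 : ∀ l ∈ range L, ‖∑ l' ∈ range L, ∑ n ∈ range N,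
        ee (h * (x * (b : ℝ) ^ n) * ((b : ℝ) ^ (p * l) - (b : ℝ) ^ (p * l')))‖ ≤ 2 * N := by
      intro l hl
      refine (norm_sum_le _ _).trans ?_
      have e4 : ∀ l' ∈ range L, ‖∑ n ∈ range N,
          ee (h * (x * (b : ℝ) ^ n) * ((b : ℝ) ^ (p * l) - (b : ℝ) ^ (p * l')))‖ ≤
          N / L + if l = l' then (N : ℝ) else 0 := by
        intro l' hl'
        by_cases hne : l = l'
        · rw [if_pos hne]
          refine (norm_sum_le _ _).trans ?_
          simp only [norm_ee, sum_const, card_range, nsmul_eq_mul, mul_one]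
          have : (0 : ℝ) ≤ N / L := by positivity
          linarith
        · rw [if_neg hne, add_zero]
          exact hoffN l hl l' hl' hne
      refine (sum_le_sum e4).trans (le_of_eq ?_)
      rw [sum_add_distrib, sum_const, card_range, nsmul_eq_mul, sum_ite_eq, if_pos hl]
      field_simp
      ring
    refine (sum_le_sum e3).trans (le_of_eq ?_)
    rw [sum_const, card_range, nsmul_eq_mul]
    ring
  have h3 : ‖∑ n ∈ range N, c n * F n‖ ≤ √(2 * L) * N := by
    have e1 : ‖∑ n ∈ range N, c n * F n‖ ≤ ∑ n ∈ range N, ‖F n‖ := by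
      refine (norm_sum_le _ _).trans (sum_le_sum fun n _ => ?_)
      rw [norm_mul]
      have := mul_le_mul_of_nonneg_right (hc1 n) (norm_nonneg (F n))
      linarith
    have e2 : (∑ n ∈ range N, ‖F n‖) ^ 2 ≤ N * ∑ n ∈ range N, ‖F n‖ ^ 2 := by
      have := sq_sum_le_card_mul_sum_sq (s := range N) (f := fun n => ‖F n‖)
      rwa [card_range] at this
    have e3 : (∑ n ∈ range N, ‖F n‖) ^ 2 ≤ (√(2 * L) * N) ^ 2 := by
      rw [mul_pow, Real.sq_sqrt (by positivity)]
      refine e2.trans ?_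
      have := mul_le_mul_of_nonneg_left h2 hNR.le
      nlinarith
    exact e1.trans (abs_le_of_sq_le_sq' e3 (by positivity)).2
  have h4 : (L : ℝ) * ‖S‖ ≤ √(2 * L) * N + L * (2 * (p * L)) := by
    have e1 : (L : ℝ) * ‖S‖ = ‖(L : ℂ) * S‖ := by
      rw [norm_mul, Complex.norm_natCast]
    have e2 : (L : ℂ) * S = ∑ n ∈ range N, c n * F n - (∑ n ∈ range N, c n * F n - L * S) := by ring
    rw [e1, e2]
    refine (norm_sub_le _ _).trans ?_
    linarith
  have h5 : √(2 * L) ≤ ε / 4 * L := by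
    apply Real.sqrt_le_iff.2 ⟨by positivity, ?_⟩
    rw [div_lt_iff₀ (by positivity)] at hL2
    nlinarith
  have h6 : (L : ℝ) * ‖S‖ ≤ L * (3 / 4 * ε * N) := by
    refine h4.trans ?_
    have e1 : √(2 * L) * N ≤ ε / 4 * L * N := mul_le_mul_of_nonneg_right h5 hNR.le
    have e2 : (L : ℝ) * (2 * (p * L)) ≤ L * (ε / 2 * N) :=
      mul_le_mul_of_nonneg_left (by linarith) hL0.le
    nlinarith
  have h7 := le_of_mul_le_mul_left h6 hL0
  have : 0 < ε * N := by positivity
  linarith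

end Pool.Agent.N787.RT
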